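import Pool.Agent.Lib_MP_22d2c8_ln.Defs

/-!
# Negations above a set of input variables: the edges of a graph, templates, blocks
-/

namespace Pool.Agent.Lib_MP_22d2c8_ln

open Finset
open Pool.Agent.Lib_MP_22d2c8_clq

/-- The edge variable of two different vertices. -/
def edge {N : ℕ} (i j : Fin N) (h : i ≠ j) : EdgeVar N :=
  if h' : i < j then ⟨(i, j), h'⟩ else ⟨(j, i), lt_of_le_of_ne (not_lt.mp h') h.symm⟩

/-- The graph on `X` with the constant edges `CA` and the variable edges `pr b i`. -/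
def FullG {X I E : Type} (CA : X → X → Prop) (pr : I → E → X × X) (x : I → E → Prop)
    (u v : X) : Prop :=
  CA u v ∨ ∃ b i, x b i ∧ (pr b i = (u, v) ∨ pr b i = (v, u))

/-- The constant part of the input. -/
def z0G {N : ℕ} {X : Type} (CA : X → X → Prop) (emb : X → Fin N) (e : EdgeVar N) : Prop :=
  ∃ u v, CA u v ∧ emb u = e.1.1 ∧ emb v = e.1.2

open Classical in
/-- The neighbours of `a` in `L` along edges in `U`. -/
noncomputable def nbr {N : ℕ} (U : Set (EdgeVar N)) (L : Finset (Fin N)) (a : Fin N) :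
    Finset (Fin N) :=
  L.filter (fun l => ∃ e ∈ U, (e.1.1 = a ∧ e.1.2 = l) ∨ (e.1.1 = l ∧ e.1.2 = a))

/-- What the lower bound needs: blocks with variables in `U`. -/
def Blocks {N : ℕ} (U : Set (EdgeVar N)) (B κ w m q : ℕ) : Prop :=
  ∃ (I : Type) (_ : Fintype I) (z0 : EdgeVar N → Prop) (φ : I → Fin m × Fin q → EdgeVar N),
    B ≤ Fintype.card I ∧ (∀ b b' i i', φ b i = φ b' i' → b = b' ∧ i = i') ∧
    (∀ b i, ¬ z0 (φ b i)) ∧ (∀ b i, φ b i ∈ U) ∧
    ∀ x : I → Fin m × Fin q → Prop,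
      HasClique N κ (fun j => @decide (fillIn z0 φ x j) (Classical.propDecidable _)) ↔
        ∃ b, HasPoly w m q (x b)

end Pool.Agent.Lib_MP_22d2c8_ln
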