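import Pool.Agent.Lib_MP_22d2c8_ln.Blk

/-!
# Negations above a set of input variables: the graph with selector vertices
-/

namespace Pool.Agent.Lib_MP_22d2c8_ln

open Finset
open Pool.Agent.Lib_MP_22d2c8_clq

variable {S K P w m q : ℕ}

/-- The ends of the variable edges in `Vx`. -/
def spr (b : Fin S × Fin K) (i : Fin m × Fin q) : Vx S K P w m q × Vx S K P w m q :=
  (.inl b.1, fin b.2 i)

private theorem full_iff (x : Fin S × Fin K → Fin m × Fin q → Prop) (u v : Vx S K P w m q) :
    FullG ConstAdj spr x u v ↔ FullAdj x u v := by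
  constructor
  · rintro (h | ⟨b, i, hx, h | h⟩)
    · exact Or.inl h
    · exact Or.inr (Or.inl ⟨b, i, hx, (congrArg Prod.fst h).symm, (congrArg Prod.snd h).symm⟩)
    · exact Or.inr (Or.inr ⟨b, i, hx, (congrArg Prod.fst h).symm, (congrArg Prod.snd h).symm⟩)
  · rintro (h | ⟨b, i, hx, h1, h2⟩ | ⟨b, i, hx, h1, h2⟩)
    · exact Or.inl h
    · exact Or.inr ⟨b, i, hx, Or.inl (Prod.ext h1.symm h2.symm)⟩
    · exact Or.inr ⟨b, i, hx, Or.inr (Prod.ext h1.symm h2.symm)⟩

theorem sel_transversal (hw : 1 ≤ w) (hm : 1 ≤ m) (hq : 0 < q)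
    (x : Fin S × Fin K → Fin m × Fin q → Prop) :
    (∃ g : Col P w m → Vx S K P w m q, (∀ c, col (g c) = c) ∧
      ∀ c c', c ≠ c' → FullG ConstAdj spr x (g c) (g c')) ↔ ∃ b, HasPoly w m q (x b) := by
  constructor
  · rintro ⟨g, hcol, hadj⟩
    exact poly_of_clique hw hm hq x g hcol
      (fun c c' hne => (full_iff x _ _).mp (hadj c c' hne))
  · rintro ⟨b, hb⟩
    obtain ⟨g, hg⟩ := clique_of_poly (P := P) hq x b hb
    have hinj : Function.Injective (fun c => col (g c)) := by
      intro c c' hcc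
      by_contra hne
      exact col_ne (hg c c' hne) hcc
    have hbij : Function.Bijective (fun c => col (g c)) :=
      Finite.injective_iff_bijective.mp hinj
    let σ := Equiv.ofBijective _ hbij
    refine ⟨fun c => g (σ.symm c), fun c => σ.apply_symm_apply c, ?_⟩
    intro c c' hne
    exact (full_iff x _ _).mpr (hg _ _ (fun e => hne (σ.symm.injective e)))

theorem scol_ne (x : Fin S × Fin K → Fin m × Fin q → Prop) (u v : Vx S K P w m q)
    (h : FullG ConstAdj spr x u v) : col u ≠ col v :=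
  col_ne ((full_iff x u v).mp h)

end Pool.Agent.Lib_MP_22d2c8_ln
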