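import Pool.Agent.Lib_MP_22d2c8_ln.Emb
import Pool.Agent.Lib_MP_22d2c8_ln.Sel

/-!
# Negations above a set of input variables: blocks between two sets of vertices
-/

namespace Pool.Agent.Lib_MP_22d2c8_ln

open Finset
open Pool.Agent.Lib_MP_22d2c8_clq

/-- The sizes: `a`, `l` are the sizes of the two sets, `c` is the bound for the parts used. -/
private theorem sizes {N B F a l M : ℕ} (hM : 1 ≤ M) (hMF : M ≤ F) (hF : 1 ≤ F)
    (hNF : 100 * F ≤ N) (hal : a + l ≤ N) (h1 : 16 * B * F ≤ a * l) (h2 : 2 * F ≤ l) :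
    B ≤ min a (3 * N / 16) * (min l (3 * N / 16) / M) := by
  obtain ⟨c, hc⟩ : ∃ c, c = 3 * N / 16 := ⟨_, rfl⟩
  have hc1 : 3 * N ≤ 16 * c + 15 := by omega
  have hcN : 16 * c ≤ 3 * N := by omega
  have hcF : 2 * F ≤ c := by omega
  rw [← hc]
  set S := min a c with hS
  set l' := min l c with hl'
  have hl'F : 2 * F ≤ l' := le_min h2 hcF
  -- the product of the parts
  have key : 2 * (B * F) ≤ S * l' := by
    have h8 : a * l ≤ 8 * (S * l') := by
      rcases le_total a c with hac | hac <;> rcases le_total l c with hlc | hlc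
      · rw [hS, hl', min_eq_left hac, min_eq_left hlc]
        nlinarith
      · rw [hS, hl', min_eq_left hac, min_eq_right hlc]
        have : l ≤ 8 * c := by omega
        nlinarith
      · rw [hS, hl', min_eq_right hac, min_eq_left hlc]
        have : a ≤ 8 * c := by omega
        nlinarith
      · rw [hS, hl', min_eq_right hac, min_eq_right hlc]
        have e1 : 4 * (a * l) ≤ N * N := by
          have : (a + l) * (a + l) ≤ N * N := Nat.mul_le_mul hal hal
          nlinarith [sq_nonneg ((a : ℤ) - l)]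
        have e2 : N * N ≤ 32 * (c * c) := by
          have hN : 100 ≤ N := by omega
          zify at *
          nlinarith
        nlinarith
    nlinarith
  -- the number of arrays
  have hK : l' ≤ 2 * (l' / M * M) := by
    have e1 := Nat.div_add_mod l' M
    have e2 := Nat.mod_lt l' hM
    have e3 : l' / M * M = M * (l' / M) := Nat.mul_comm _ _
    omega
  by_contra hlt
  have h5 : S * (l' / M) + 1 ≤ B := Nat.lt_of_not_le hlt
  have h6 : S * l' ≤ S * (2 * (l' / M * M)) := Nat.mul_le_mul_left S hK
  have h7 : S * (2 * (l' / M * M)) = 2 * (S * (l' / M) * M) := by ring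
  have h8 : S * (l' / M) * M ≤ S * (l' / M) * F := Nat.mul_le_mul_left _ hMF
  have h9 : (S * (l' / M) + 1) * F ≤ B * F := Nat.mul_le_mul_right F h5
  nlinarith

/-- The ends of the edge variable. -/
private theorem edge_endsA {N : ℕ} (i j : Fin N) (h : i ≠ j) :
    (edge i j h).1 = (i, j) ∨ (edge i j h).1 = (j, i) := by
  unfold edge
  split_ifs with h'
  · exact Or.inl rfl
  · exact Or.inr rfl

theorem blocks_biclique {N B F κ w m q : ℕ} (U : Set (EdgeVar N)) (hw : 1 ≤ w) (hm : 1 ≤ m)
    (hq : 0 < q) (hmq : m * q ≤ F) (hF : 1 ≤ F) (hNF : 100 * F ≤ N)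
    (hG : 8 * (m * ((w + 1) * (q * q))) ≤ N) (hκ1 : 1 + (m * (w + 1) + m) ≤ κ)
    (hκ2 : 2 * κ ≤ N) (A L : Finset (Fin N)) (hAL : Disjoint A L)
    (hU : ∀ e : EdgeVar N, (e.1.1 ∈ A ∧ e.1.2 ∈ L) ∨ (e.1.1 ∈ L ∧ e.1.2 ∈ A) → e ∈ U)
    (h1 : 16 * B * F ≤ A.card * L.card) (h2 : 2 * F ≤ L.card) : Blocks U B κ w m q := by
  classical
  have hM : 1 ≤ m * q := Nat.mul_pos hm hq
  have hal : A.card + L.card ≤ N := by
    rw [← card_union_of_disjoint hAL]
    exact (card_le_univ _).trans_eq (Fintype.card_fin N)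
  obtain ⟨S, hSdef⟩ : ∃ S, S = min A.card (3 * N / 16) := ⟨_, rfl⟩
  obtain ⟨K, hKdef⟩ : ∃ K, K = min L.card (3 * N / 16) / (m * q) := ⟨_, rfl⟩
  have hSK : B ≤ S * K := by
    rw [hSdef, hKdef]
    exact sizes hM hmq hF hNF hal h1 h2
  have hS1 : S ≤ A.card := hSdef ▸ min_le_left _ _
  have hS2 : S ≤ 3 * N / 16 := hSdef ▸ min_le_right _ _
  have hK0 : K * (m * q) ≤ min L.card (3 * N / 16) := hKdef ▸ Nat.div_mul_le_self _ _
  have hK1 : K * (m * q) ≤ L.card := hK0.trans (min_le_left _ _)
  have hK2 : K * (m * q) ≤ 3 * N / 16 := hK0.trans (min_le_right _ _)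
  obtain ⟨P, hP⟩ : ∃ P, κ = 1 + (m * (w + 1) + (m + P)) :=
    ⟨κ - (1 + (m * (w + 1) + m)), by omega⟩
  -- the places of the selector vertices
  obtain ⟨fA, hfA, hfA1⟩ : ∃ f : Fin S → Fin N, Function.Injective f ∧ ∀ i, f i ∈ A := by
    have hh : Fintype.card (Fin S) ≤ Fintype.card A := by
      rw [Fintype.card_fin, Fintype.card_coe]
      exact hS1
    obtain ⟨e⟩ := Function.Embedding.nonempty_of_card_le hh
    exact ⟨fun i => (e i).1, fun i j h => e.injective (Subtype.ext h), fun i => (e i).2⟩
  -- the places of the arrays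
  obtain ⟨fL, hfL, hfL1⟩ : ∃ f : Fin K × (Fin m × Fin q) → Fin N,
      Function.Injective f ∧ ∀ i, f i ∈ L := by
    have hh : Fintype.card (Fin K × (Fin m × Fin q)) ≤ Fintype.card L := by
      rw [Fintype.card_prod, Fintype.card_prod, Fintype.card_fin, Fintype.card_fin,
        Fintype.card_fin, Fintype.card_coe]
      exact hK1
    obtain ⟨e⟩ := Function.Embedding.nonempty_of_card_le hh
    exact ⟨fun i => (e i).1, fun i j h => e.injective (Subtype.ext h), fun i => (e i).2⟩
  have hAneL : ∀ i j, fA i ≠ fL j := by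
    intro i j h
    exact (Finset.disjoint_left.mp hAL) (hfA1 i) (h ▸ hfL1 j)
  -- the places of the other vertices
  obtain ⟨g, hg, hg1⟩ := exists_place (N := N) (X1 := Fin S ⊕ (Fin K × (Fin m × Fin q)))
    (X2 := Gad w m q ⊕ Fin P) (Sum.elim fA fL)
    (hfA.sumElim hfL hAneL)
    (by
      rw [Fintype.card_sum, Fintype.card_sum, Fintype.card_prod, Fintype.card_prod]
      simp only [Gad, Fintype.card_prod, Fintype.card_fin]
      omega)
  have hgA : ∀ i b, fA i ≠ g b := fun i b => hg1 (.inl i) b
  have hgL : ∀ i b, fL i ≠ g b := fun i b => hg1 (.inr i) b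
  let emb : Vx S K P w m q → Fin N := fun u => match u with
    | .inl α => fA α
    | .inr (.inl u) => g (.inl u)
    | .inr (.inr (.inl ki)) => fL ki
    | .inr (.inr (.inr p)) => g (.inr p)
  have hemb : Function.Injective emb := by
    intro u v huv
    rcases u with α | u | k | p <;> rcases v with α' | u' | k' | p'
    · exact congrArg _ (hfA huv)
    · exact absurd huv (hgA _ _)
    · exact absurd huv (hAneL _ _)
    · exact absurd huv (hgA _ _)
    · exact absurd huv.symm (hgA _ _)
    · have := Sum.inl_injective (hg huv)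
      rw [this]
    · exact absurd huv.symm (hgL _ _)
    · exact absurd (hg huv) (by simp)
    · exact absurd huv.symm (hAneL _ _)
    · exact absurd huv (hgL _ _)
    · rw [hfL huv]
    · exact absurd huv (hgL _ _)
    · exact absurd huv.symm (hgA _ _)
    · exact absurd (hg huv) (by simp)
    · exact absurd huv.symm (hgL _ _)
    · have := Sum.inr_injective (hg huv)
      rw [this]
  have hne : ∀ (b : Fin S × Fin K) (i : Fin m × Fin q),
      emb (spr (P := P) (w := w) b i).1 ≠ emb (spr (P := P) (w := w) b i).2 :=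
    fun b i => hAneL _ _
  refine ⟨Fin S × Fin K, inferInstance, z0G ConstAdj emb,
    fun b i => edge (emb (spr b i).1) (emb (spr b i).2) (hne b i), ?_, ?_, ?_, ?_, ?_⟩
  · rw [Fintype.card_prod, Fintype.card_fin, Fintype.card_fin]
    exact hSK
  · refine edge_inj spr emb hemb hne ?_
    intro b b' i i' h
    rcases h with h | h
    · have e1 : b.1 = b'.1 := by
        have := congrArg Prod.fst h
        simpa [spr] using this
      have e2 : b.2 = b'.2 ∧ i = i' := by
        have := congrArg Prod.snd h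
        simpa [spr, fin] using this
      exact ⟨Prod.ext e1 e2.1, e2.2⟩
    · have := congrArg Prod.fst h
      exact absurd this (by simp [spr, fin])
  · exact z0G_edge ConstAdj spr emb hemb (fun _ _ h => h.symm) hne
      (fun b i => by simp [spr, fin, ConstAdj])
  · intro b i
    apply hU
    have e1 : emb (spr (P := P) (w := w) b i).1 ∈ A := hfA1 _
    have e2 : emb (spr (P := P) (w := w) b i).2 ∈ L := hfL1 _
    rcases edge_endsA _ _ (hne b i) with h | h
    · refine Or.inl ⟨?_, ?_⟩
      · show (edge _ _ (hne b i)).1.1 ∈ A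
        rw [h]
        exact e1
      · show (edge _ _ (hne b i)).1.2 ∈ L
        rw [h]
        exact e2
    · refine Or.inr ⟨?_, ?_⟩
      · show (edge _ _ (hne b i)).1.1 ∈ L
        rw [h]
        exact e2
      · show (edge _ _ (hne b i)).1.2 ∈ A
        rw [h]
        exact e1
  · intro x
    have hcard : Fintype.card (Col P w m) = κ := by rw [card_col, hP]
    exact (clique_iff_transversal ConstAdj spr emb hemb (fun _ _ h => h.symm) hne col
      scol_ne hcard (by omega) x).trans (sel_transversal hw hm hq x)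

end Pool.Agent.Lib_MP_22d2c8_ln
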