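import Pool.Agent.Lib_MP_22d2c8_ln.Blk

/-!
# Colourings such that each of the given sets contains every colour
-/

namespace Pool.Agent.Lib_MP_22d2c8_ln

open Finset

theorem two_mul_pow_le (g : ℕ) : 2 * g ^ (g + 1) ≤ (g + 1) ^ (g + 1) := by
  rw [add_pow]
  have h1 : ∑ k ∈ ({g + 1, g} : Finset ℕ), g ^ k * 1 ^ (g + 1 - k) * (g + 1).choose k ≤
      ∑ k ∈ Finset.range (g + 1 + 1), g ^ k * 1 ^ (g + 1 - k) * (g + 1).choose k := by
    refine Finset.sum_le_sum_of_subset ?_
    intro k hk
    simp only [Finset.mem_insert, Finset.mem_singleton] at hk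
    rw [Finset.mem_range]
    omega
  refine le_trans ?_ h1
  rw [Finset.sum_pair (by omega)]
  simp only [one_pow, mul_one, Nat.choose_self, Nat.choose_succ_self_right]
  have h2 : g ^ (g + 1) ≤ g ^ g * (g + 1) := by
    rw [pow_succ]
    exact Nat.mul_le_mul_left _ (Nat.le_succ g)
  omega

/-- The probability that a set of `D` elements misses a colour. -/
theorem pow_colours_le {G : ℕ} (hG : 1 ≤ G) (D : ℕ) : 2 ^ (D / G) * (G - 1) ^ D ≤ G ^ D := by
  obtain ⟨g, rfl⟩ : ∃ g, G = g + 1 := ⟨G - 1, by omega⟩
  rw [Nat.add_sub_cancel]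
  have hD : D = (g + 1) * (D / (g + 1)) + D % (g + 1) := (Nat.div_add_mod D (g + 1)).symm
  set k := D / (g + 1) with hk
  set r := D % (g + 1) with hr
  rw [hD, pow_add, pow_add, pow_mul, pow_mul, ← mul_assoc, ← mul_pow]
  exact Nat.mul_le_mul (Nat.pow_le_pow_left (two_mul_pow_le g) k)
    (Nat.pow_le_pow_left (Nat.le_succ g) r)

/-- The number of the colourings which miss the colour `c` on `S`. -/
theorem card_missing {n G : ℕ} (S : Finset (Fin n)) (c : Fin G) :
    (Fintype.piFinset (fun l => if l ∈ S then (Finset.univ.erase c) else Finset.univ)).card =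
      (G - 1) ^ S.card * G ^ (n - S.card) := by
  classical
  rw [Fintype.card_piFinset]
  have h1 : ∀ l : Fin n, (if l ∈ S then (Finset.univ.erase c) else
      (Finset.univ : Finset (Fin G))).card = if l ∈ S then G - 1 else G := by
    intro l
    split_ifs
    · rw [Finset.card_erase_of_mem (Finset.mem_univ c), Finset.card_univ, Fintype.card_fin]
    · rw [Finset.card_univ, Fintype.card_fin]
  simp_rw [h1]
  rw [Finset.prod_ite, Finset.prod_const, Finset.prod_const]
  congr 2
  · simp
  · have h2 : (Finset.univ.filter (fun l => l ∉ S)) = Sᶜ := by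
      ext l; simp
    rw [h2, Finset.card_compl, Fintype.card_fin]

/-- A colouring with `G` colours such that each of the given sets contains every colour. -/
theorem exists_cells {I : Type} [Fintype I] {n G D : ℕ} (hG : 1 ≤ G)
    (S : I → Finset (Fin n)) (hS : ∀ a, D ≤ (S a).card)
    (h : Fintype.card I * G < 2 ^ (D / G)) :
    ∃ σ : Fin n → Fin G, ∀ a c, ∃ l ∈ S a, σ l = c := by
  classical
  by_contra hcon
  push Not at hcon
  have hcover : (Finset.univ : Finset (Fin n → Fin G)) ⊆
      (Finset.univ : Finset (I × Fin G)).biUnion (fun p =>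
        Fintype.piFinset (fun l => if l ∈ S p.1 then (Finset.univ.erase p.2) else
          Finset.univ)) := by
    intro σ _
    obtain ⟨a, c, hac⟩ := hcon σ
    rw [Finset.mem_biUnion]
    refine ⟨(a, c), Finset.mem_univ _, ?_⟩
    rw [Fintype.mem_piFinset]
    intro l
    by_cases hl : l ∈ S a
    · simp only [hl, if_true]
      exact Finset.mem_erase.mpr ⟨hac l hl, Finset.mem_univ _⟩
    · simp only [hl, if_false]
      exact Finset.mem_univ _
  have h1 := (Finset.card_le_card hcover).trans Finset.card_biUnion_le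
  rw [Finset.card_univ, Fintype.card_fun, Fintype.card_fin, Fintype.card_fin] at h1
  have h2 : ∀ p : I × Fin G, 2 ^ (D / G) * (Fintype.piFinset (fun l =>
      if l ∈ S p.1 then (Finset.univ.erase p.2) else Finset.univ)).card ≤ G ^ n := by
    intro p
    rw [card_missing]
    have hSn : (S p.1).card ≤ n := by
      have := Finset.card_le_univ (S p.1)
      rwa [Fintype.card_fin] at this
    have hDS := hS p.1
    obtain ⟨e, he⟩ : ∃ e, (S p.1).card = D + e := ⟨(S p.1).card - D, by omega⟩
    have h3 : G ^ n = G ^ D * (G ^ e * G ^ (n - (S p.1).card)) := by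
      rw [← pow_add, ← pow_add]
      congr 1
      omega
    rw [h3, he, pow_add, mul_assoc, ← mul_assoc]
    refine Nat.mul_le_mul (pow_colours_le hG D) (Nat.mul_le_mul_right _ ?_)
    exact Nat.pow_le_pow_left (Nat.sub_le G 1) e
  have h4 : 2 ^ (D / G) * G ^ n ≤ Fintype.card I * G * G ^ n := by
    calc 2 ^ (D / G) * G ^ n ≤ 2 ^ (D / G) * ∑ p : I × Fin G, (Fintype.piFinset (fun l =>
          if l ∈ S p.1 then (Finset.univ.erase p.2) else Finset.univ)).card :=
          Nat.mul_le_mul_left _ h1
      _ = ∑ p : I × Fin G, 2 ^ (D / G) * (Fintype.piFinset (fun l =>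
          if l ∈ S p.1 then (Finset.univ.erase p.2) else Finset.univ)).card := by
          rw [Finset.mul_sum]
      _ ≤ ∑ _p : I × Fin G, G ^ n := Finset.sum_le_sum fun p _ => h2 p
      _ = Fintype.card I * G * G ^ n := by
          rw [Finset.sum_const, Finset.card_univ, Fintype.card_prod, Fintype.card_fin,
            smul_eq_mul]
  have hpos : 0 < G ^ n := by positivity
  exact absurd (Nat.le_of_mul_le_mul_right h4 hpos) (not_le.mpr h)

end Pool.Agent.Lib_MP_22d2c8_ln
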