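import Pool.Agent.Lib_MP_22d2c8_ln.Blk

/-!
# Negations above a set of input variables: selectors, gadget, leaves with given cells, padding

The graph of `Lib_MP_22d2c8_clq/Clique.lean`, but the vertices of the arrays are leaves `l` with
array and cell `σ l` (several leaves may belong to the same cell), and only the edges from the
selector `b.1` to the leaf `lf b i` of the cell `i` in the array `b.2` are variable.  The cliques
with all the colours exist iff some block contains a polynomial.
-/

namespace Pool.Agent.Lib_MP_22d2c8_ln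

open Finset
open Pool.Agent.Lib_MP_22d2c8_clq

section Q2
variable {S n K P w m q : ℕ}

/-- The vertices: selectors, the gadget, leaves, additional vertices. -/
abbrev Dx (S n P w m q : ℕ) : Type := Fin S ⊕ (Gad w m q ⊕ (Fin n ⊕ Fin P))

/-- The constant edges; the leaf `l` belongs to the array and the cell `σ l`. -/
def DConst (σ : Fin n → Fin K × (Fin m × Fin q)) : Dx S n P w m q → Dx S n P w m q → Prop
  | .inl _, .inl _ => False
  | .inl _, .inr (.inl _) => True
  | .inl _, .inr (.inr (.inl _)) => False
  | .inl _, .inr (.inr (.inr _)) => True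
  | .inr (.inl _), .inl _ => True
  | .inr (.inl u), .inr (.inl u') => GAdj u u'
  | .inr (.inl u), .inr (.inr (.inl l)) =>
      u.2.1 = Fin.last w → u.1 = (σ l).2.1 → u.2.2.1 = (σ l).2.2
  | .inr (.inl _), .inr (.inr (.inr _)) => True
  | .inr (.inr (.inl _)), .inl _ => False
  | .inr (.inr (.inl l)), .inr (.inl u) =>
      u.2.1 = Fin.last w → u.1 = (σ l).2.1 → u.2.2.1 = (σ l).2.2
  | .inr (.inr (.inl l)), .inr (.inr (.inl l')) =>
      (σ l).1 = (σ l').1 ∧ (σ l).2.1 ≠ (σ l').2.1
  | .inr (.inr (.inl _)), .inr (.inr (.inr _)) => True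
  | .inr (.inr (.inr _)), .inl _ => True
  | .inr (.inr (.inr _)), .inr (.inl _) => True
  | .inr (.inr (.inr _)), .inr (.inr (.inl _)) => True
  | .inr (.inr (.inr p)), .inr (.inr (.inr p')) => p ≠ p'

/-- The ends of the variable edges: the selector and the leaf of the cell. -/
def dpr (lf : Fin S × Fin K → Fin m × Fin q → Fin n) (b : Fin S × Fin K) (i : Fin m × Fin q) :
    Dx S n P w m q × Dx S n P w m q :=
  (.inl b.1, .inr (.inr (.inl (lf b i))))

/-- The colour of a vertex. -/
def dcol (σ : Fin n → Fin K × (Fin m × Fin q)) : Dx S n P w m q → Col P w m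
  | .inl _ => .inl ()
  | .inr (.inl u) => .inr (.inl (u.1, u.2.1))
  | .inr (.inr (.inl l)) => .inr (.inr (.inl (σ l).2.1))
  | .inr (.inr (.inr p)) => .inr (.inr (.inr p))

theorem DConst_symm (σ : Fin n → Fin K × (Fin m × Fin q)) {u v : Dx S n P w m q}
    (h : DConst σ u v) : DConst σ v u := by
  rcases u with α | u | l | p <;> rcases v with α' | u' | l' | p' <;>
    simp only [DConst] at h ⊢
  · exact h.symm
  · exact h
  · exact h
  · exact ⟨h.1.symm, fun e => h.2 e.symm⟩
  · exact fun e => h e.symm

theorem dcol_ne (σ : Fin n → Fin K × (Fin m × Fin q))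
    (lf : Fin S × Fin K → Fin m × Fin q → Fin n) (hlf : ∀ b i, σ (lf b i) = (b.2, i))
    (x : Fin S × Fin K → Fin m × Fin q → Prop) (u v : Dx S n P w m q)
    (h : FullG (DConst σ) (dpr lf) x u v) : dcol σ u ≠ dcol σ v := by
  rcases h with h | ⟨b, i, -, h | h⟩
  · rcases u with α | u | l | p <;> rcases v with α' | u' | l' | p' <;>
      simp only [DConst, dcol] at h ⊢
    · simp
    · simp
    · simp
    · intro e
      exact h.2.2.1 (by simpa using e)
    · simp
    · simp
    · simp
    · intro e
      exact h.2 (by simpa using e)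
    · simp
    · simp
    · simp
    · simp
    · intro e
      exact h (by simpa using e)
  · have h1 : (.inl b.1 : Dx S n P w m q) = u := congrArg Prod.fst h
    have h2 : (.inr (.inr (.inl (lf b i))) : Dx S n P w m q) = v := congrArg Prod.snd h
    subst h1 h2
    simp [dcol]
  · have h1 : (.inl b.1 : Dx S n P w m q) = v := congrArg Prod.fst h
    have h2 : (.inr (.inr (.inl (lf b i))) : Dx S n P w m q) = u := congrArg Prod.snd h
    subst h1 h2
    simp [dcol]

private theorem fullG_symm (σ : Fin n → Fin K × (Fin m × Fin q))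
    (lf : Fin S × Fin K → Fin m × Fin q → Fin n)
    {x : Fin S × Fin K → Fin m × Fin q → Prop} {u v : Dx S n P w m q}
    (h : FullG (DConst σ) (dpr lf) x u v) : FullG (DConst σ) (dpr lf) x v u := by
  rcases h with h | ⟨b, i, hx, h⟩
  · exact Or.inl (DConst_symm σ h)
  · exact Or.inr ⟨b, i, hx, h.symm⟩

private theorem adj_gad (σ : Fin n → Fin K × (Fin m × Fin q))
    (lf : Fin S × Fin K → Fin m × Fin q → Fin n)
    {x : Fin S × Fin K → Fin m × Fin q → Prop} {u u' : Gad w m q}
    (h : FullG (DConst (S := S) (P := P) σ) (dpr lf) x (.inr (.inl u)) (.inr (.inl u'))) :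
    GAdj u u' := by
  rcases h with h | ⟨b, i, -, h | h⟩
  · exact h
  · exact absurd (congrArg Prod.fst h) (by simp [dpr])
  · exact absurd (congrArg Prod.fst h) (by simp [dpr])

private theorem adj_leaf (σ : Fin n → Fin K × (Fin m × Fin q))
    (lf : Fin S × Fin K → Fin m × Fin q → Fin n)
    {x : Fin S × Fin K → Fin m × Fin q → Prop} {l l' : Fin n}
    (h : FullG (DConst (S := S) (P := P) (w := w) σ) (dpr lf) x (.inr (.inr (.inl l)))
      (.inr (.inr (.inl l')))) : (σ l).1 = (σ l').1 := by
  rcases h with h | ⟨b, i, -, h | h⟩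
  · exact h.1
  · exact absurd (congrArg Prod.fst h) (by simp [dpr])
  · exact absurd (congrArg Prod.fst h) (by simp [dpr])

private theorem adj_gad_leaf (σ : Fin n → Fin K × (Fin m × Fin q))
    (lf : Fin S × Fin K → Fin m × Fin q → Fin n)
    {x : Fin S × Fin K → Fin m × Fin q → Prop} {l : Fin n} {u : Gad w m q}
    (h : FullG (DConst (S := S) (P := P) σ) (dpr lf) x (.inr (.inl u))
      (.inr (.inr (.inl l)))) :
    u.2.1 = Fin.last w → u.1 = (σ l).2.1 → u.2.2.1 = (σ l).2.2 := by
  rcases h with h | ⟨b, i, -, h | h⟩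
  · exact h
  · exact absurd (congrArg Prod.fst h) (by simp [dpr])
  · exact absurd (congrArg Prod.fst h) (by simp [dpr])

private theorem adj_var (σ : Fin n → Fin K × (Fin m × Fin q))
    (lf : Fin S × Fin K → Fin m × Fin q → Fin n) (hlf : ∀ b i, σ (lf b i) = (b.2, i))
    {x : Fin S × Fin K → Fin m × Fin q → Prop} {α : Fin S} {l : Fin n}
    (h : FullG (DConst (P := P) (w := w) σ) (dpr lf) x (.inl α) (.inr (.inr (.inl l)))) :
    x (α, (σ l).1) (σ l).2 := by
  rcases h with h | ⟨b, i, hx, h | h⟩
  · exact absurd h (by simp [DConst])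
  · have h1 : (.inl b.1 : Dx S n P w m q) = .inl α := congrArg Prod.fst h
    have h2 : (.inr (.inr (.inl (lf b i))) : Dx S n P w m q) = .inr (.inr (.inl l)) :=
      congrArg Prod.snd h
    have e1 : b.1 = α := by simpa using h1
    have e2 : lf b i = l := by simpa using h2
    rw [← e2, ← e1, hlf]
    exact hx
  · exact absurd (congrArg Prod.fst h) (by simp [dpr])

theorem deg_transversal (hw : 1 ≤ w) (hm : 1 ≤ m) (hq : 0 < q)
    (σ : Fin n → Fin K × (Fin m × Fin q))
    (lf : Fin S × Fin K → Fin m × Fin q → Fin n) (hlf : ∀ b i, σ (lf b i) = (b.2, i))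
    (x : Fin S × Fin K → Fin m × Fin q → Prop) :
    (∃ g : Col P w m → Dx S n P w m q, (∀ c, dcol σ (g c) = c) ∧
      ∀ c c', c ≠ c' → FullG (DConst σ) (dpr lf) x (g c) (g c')) ↔
        ∃ b, HasPoly w m q (x b) := by
  constructor
  · rintro ⟨g, hcol, hadj⟩
    -- the selector vertex
    obtain ⟨α, hα⟩ : ∃ α, g (.inl ()) = .inl α := by
      have h := hcol (.inl ())
      rcases hg : g (.inl ()) with α | u | l | p
      · exact ⟨α, rfl⟩
      · rw [hg] at h
        exact absurd h (by simp [dcol])
      · rw [hg] at h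
        exact absurd h (by simp [dcol])
      · rw [hg] at h
        exact absurd h (by simp [dcol])
    -- the gadget vertices
    have hgad : ∀ (j : Fin m) (t : Fin (w + 1)), ∃ u : Gad w m q,
        g (.inr (.inl (j, t))) = .inr (.inl u) ∧ u.1 = j ∧ u.2.1 = t := by
      intro j t
      have h := hcol (.inr (.inl (j, t)))
      rcases hg : g (.inr (.inl (j, t))) with α | u | l | p
      · rw [hg] at h
        exact absurd h (by simp [dcol])
      · rw [hg] at h
        have h2 : u.1 = j ∧ u.2.1 = t := by simpa [dcol] using h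
        exact ⟨u, rfl, h2.1, h2.2⟩
      · rw [hg] at h
        exact absurd h (by simp [dcol])
      · rw [hg] at h
        exact absurd h (by simp [dcol])
    choose Q hQ hQ1 hQ2 using hgad
    -- the leaves
    have hlive : ∀ j : Fin m, ∃ l : Fin n,
        g (.inr (.inr (.inl j))) = .inr (.inr (.inl l)) ∧ (σ l).2.1 = j := by
      intro j
      have h := hcol (.inr (.inr (.inl j)))
      rcases hg : g (.inr (.inr (.inl j))) with α | u | l | p
      · rw [hg] at h
        exact absurd h (by simp [dcol])
      · rw [hg] at h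
        exact absurd h (by simp [dcol])
      · rw [hg] at h
        have h2 : (σ l).2.1 = j := by simpa [dcol] using h
        exact ⟨l, rfl, h2⟩
      · rw [hg] at h
        exact absurd h (by simp [dcol])
    choose l hl hlj using hlive
    obtain ⟨a, ha⟩ := exists_poly hw hm hq Q hQ1 hQ2 (fun j t j' t' hne => by
      have h := hadj (.inr (.inl (j, t))) (.inr (.inl (j', t'))) (by simpa using hne)
      rw [hQ, hQ] at h
      exact adj_gad σ lf h)
    let j0 : Fin m := ⟨0, hm⟩
    have hkk : ∀ j, (σ (l j)).1 = (σ (l j0)).1 := by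
      intro j
      by_cases hj : j = j0
      · rw [hj]
      · have h := hadj (.inr (.inr (.inl j))) (.inr (.inr (.inl j0))) (by simpa using hj)
        rw [hl, hl] at h
        exact adj_leaf σ lf h
    refine ⟨(α, (σ (l j0)).1), a, ?_⟩
    intro j c' hc'
    have h1 := hadj (.inl ()) (.inr (.inr (.inl j))) (by simp)
    rw [hα, hl] at h1
    have h2 := adj_var σ lf hlf h1
    rw [hkk] at h2
    have h3 := hadj (.inr (.inl (j, Fin.last w))) (.inr (.inr (.inl j))) (by simp)
    rw [hQ, hl] at h3
    have h4 := adj_gad_leaf σ lf h3 (hQ2 _ _) ((hQ1 _ _).trans (hlj j).symm)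
    rw [ha j] at h4
    have h5 : c' = (σ (l j)).2.2 := (Fin.ext hc').trans h4
    have h6 : (j, c') = (σ (l j)).2 := Prod.ext (hlj j).symm h5
    rw [h6]
    exact h2
  · rintro ⟨b, a, ha⟩
    let val : Fin m → Fin q := fun j =>
      ⟨(∑ l, (a l : ℕ) * (j : ℕ) ^ (l : ℕ)) % q, Nat.mod_lt _ hq⟩
    have hvar : ∀ j : Fin m, FullG (DConst (P := P) (w := w) σ) (dpr lf) x (.inl b.1)
        (.inr (.inr (.inl (lf b (j, val j))))) := by
      intro j
      exact Or.inr ⟨b, (j, val j), ha j _ rfl, Or.inl rfl⟩
    have hgl : ∀ (j : Fin m) (t : Fin (w + 1)) (j' : Fin m),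
        FullG (DConst (S := S) (P := P) (w := w) σ) (dpr lf) x (.inr (.inl (pick hq a j t)))
          (.inr (.inr (.inl (lf b (j', val j'))))) := by
      intro j t j'
      refine Or.inl ?_
      show (pick hq a j t).2.1 = Fin.last w → (pick hq a j t).1 = (σ (lf b (j', val j'))).2.1 →
        (pick hq a j t).2.2.1 = (σ (lf b (j', val j'))).2.2
      rw [hlf]
      intro h1 h2
      have h1' : t = Fin.last w := h1
      have h2' : j = j' := h2
      subst h1' h2'
      rw [pick_last]
    refine ⟨fun c => match c with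
      | .inl _ => .inl b.1
      | .inr (.inl (j, t)) => .inr (.inl (pick hq a j t))
      | .inr (.inr (.inl j)) => .inr (.inr (.inl (lf b (j, val j))))
      | .inr (.inr (.inr p)) => .inr (.inr (.inr p)), ?_, ?_⟩
    · rintro (c | ⟨j, t⟩ | j | p)
      · rfl
      · rfl
      · show (Sum.inr (Sum.inr (Sum.inl (σ (lf b (j, val j))).2.1)) : Col P w m) = _
        rw [hlf]
      · rfl
    · rintro (c | ⟨j, t⟩ | j | p) (c' | ⟨j', t'⟩ | j' | p') hne
      · exact absurd rfl hne
      · exact Or.inl trivial
      · exact hvar j'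
      · exact Or.inl trivial
      · exact Or.inl trivial
      · exact Or.inl (pick_adj hq a j j' t t' (fun e => hne (by rw [e])))
      · exact hgl j t j'
      · exact Or.inl trivial
      · exact fullG_symm σ lf (hvar j)
      · exact fullG_symm σ lf (hgl j' t' j)
      · refine Or.inl ?_
        show (σ (lf b (j, val j))).1 = (σ (lf b (j', val j'))).1 ∧
          (σ (lf b (j, val j))).2.1 ≠ (σ (lf b (j', val j'))).2.1
        rw [hlf, hlf]
        exact ⟨rfl, fun e => hne (by
          have e' : j = j' := e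
          rw [e'])⟩
      · exact Or.inl trivial
      · exact Or.inl trivial
      · exact Or.inl trivial
      · exact Or.inl trivial
      · exact Or.inl (fun e => hne (by rw [e]))

end Q2

end Pool.Agent.Lib_MP_22d2c8_ln
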