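import Pool.Agent.Lib_MP_22d2c8_ln.Emb
import Pool.Agent.Lib_MP_22d2c8_ln.Coupon
import Pool.Agent.Lib_MP_22d2c8_ln.DegG

/-!
# Blocks in a bipartite graph with large degrees on one side
-/

namespace Pool.Agent.Lib_MP_22d2c8_ln

open Finset
open Pool.Agent.Lib_MP_22d2c8_clq

theorem edge_eq {N : ℕ} {i j : Fin N} (h : i ≠ j) (e : EdgeVar N)
    (he : (e.1.1 = i ∧ e.1.2 = j) ∨ (e.1.1 = j ∧ e.1.2 = i)) : edge i j h = e := by
  obtain ⟨⟨a, b⟩, hab⟩ := e
  unfold edge
  rcases he with ⟨h1, h2⟩ | ⟨h1, h2⟩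
  · have h1' : a = i := h1
    have h2' : b = j := h2
    subst h1' h2'
    rw [dif_pos hab]
  · have h1' : a = j := h1
    have h2' : b = i := h2
    subst h1' h2'
    rw [dif_neg (not_lt.mpr (le_of_lt hab))]

theorem blocks_degree {N B F κ w m q v D : ℕ} (U : Set (EdgeVar N)) (hw : 1 ≤ w) (hm : 1 ≤ m)
    (hq : 0 < q) (hmq : m * q ≤ F) (hF : 1 ≤ F) (hv : 1 ≤ v) (hNv : N ^ 2 ≤ 2 ^ v)
    (hG : 8 * (m * ((w + 1) * (q * q))) ≤ N) (hκ1 : 1 + (m * (w + 1) + m) ≤ κ)
    (hκ2 : 2 * κ ≤ N) (A L : Finset (Fin N)) (hAL : Disjoint A L)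
    (hA : 16 * A.card ≤ 3 * N) (hL : 16 * L.card ≤ 3 * N)
    (hD : ∀ a ∈ A, D ≤ (nbr U L a).card) (hD2 : 2 * v * F ≤ D)
    (h : 2 * v * B * F ≤ A.card * D) : Blocks U B κ w m q := by
  classical
  have hmq1 : 1 ≤ m * q := Nat.mul_pos hm hq
  have hvmq1 : 1 ≤ v * (m * q) := Nat.mul_pos hv hmq1
  have hvmqF : v * (m * q) ≤ v * F := Nat.mul_le_mul_left _ hmq
  have h2vF : 2 * v * F = 2 * (v * F) := by ring
  -- the number of the arrays
  obtain ⟨K, hKdef⟩ : ∃ K, K = D / (v * (m * q)) := ⟨_, rfl⟩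
  have hK1 : 1 ≤ K := by
    rw [hKdef, Nat.le_div_iff_mul_le (by omega)]
    omega
  have hKD : K * (v * (m * q)) ≤ D := by
    rw [hKdef]
    exact Nat.div_mul_le_self _ _
  have hKD2 : D ≤ 2 * (K * (v * (m * q))) := by
    have h1 : D < (K + 1) * (v * (m * q)) := by
      rw [hKdef]
      exact (Nat.div_lt_iff_lt_mul (by omega)).mp (Nat.lt_succ_self _)
    rw [Nat.add_mul, one_mul] at h1
    have h2 : 1 * (v * (m * q)) ≤ K * (v * (m * q)) := Nat.mul_le_mul_right _ hK1
    omega
  -- the leaves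
  let eA : Fin A.card ≃ A := A.equivFin.symm
  let eL : Fin L.card ≃ L := L.equivFin.symm
  let S : Fin A.card → Finset (Fin L.card) := fun a =>
    Finset.univ.filter (fun l => (eL l : Fin N) ∈ nbr U L (eA a))
  have hS : ∀ a, D ≤ (S a).card := by
    intro a
    refine (hD (eA a) (eA a).2).trans (le_of_eq ?_)
    symm
    refine Finset.card_bij (fun l _ => (eL l : Fin N)) ?_ ?_ ?_
    · intro l hl
      exact (Finset.mem_filter.mp hl).2
    · intro l _ l' _ hll
      exact eL.injective (Subtype.ext hll)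
    · intro y hy
      have hyL : y ∈ L := (Finset.mem_filter.mp hy).1
      refine ⟨eL.symm ⟨y, hyL⟩, ?_, ?_⟩
      · rw [Finset.mem_filter, Equiv.apply_symm_apply]
        exact ⟨Finset.mem_univ _, hy⟩
      · rw [Equiv.apply_symm_apply]
  have hG1 : 1 ≤ K * (m * q) := Nat.mul_pos hK1 hmq1
  have hcard : Fintype.card (Fin A.card) * (K * (m * q)) < 2 ^ (D / (K * (m * q))) := by
    rw [Fintype.card_fin]
    have h1 : v ≤ D / (K * (m * q)) := by
      rw [Nat.le_div_iff_mul_le (by omega)]
      refine le_trans (le_of_eq ?_) hKD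
      ring
    have h2 : (2 : ℕ) ^ v ≤ 2 ^ (D / (K * (m * q))) := Nat.pow_le_pow_right (by norm_num) h1
    refine lt_of_lt_of_le ?_ h2
    rcases Nat.eq_zero_or_pos A.card with hA0 | hA0
    · rw [hA0, zero_mul]
      positivity
    · refine lt_of_lt_of_le ?_ hNv
      obtain ⟨a, ha⟩ := Finset.card_pos.mp hA0
      have h3 : D ≤ L.card := (hD a ha).trans (Finset.card_le_card (Finset.filter_subset _ _))
      have h4 : K * (m * q) ≤ D := by
        refine le_trans ?_ hKD
        exact Nat.mul_le_mul_left _ (by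
          have : 1 * (m * q) ≤ v * (m * q) := Nat.mul_le_mul_right _ hv
          omega)
      have h5 : A.card * (K * (m * q)) ≤ A.card * N := Nat.mul_le_mul_left _ (by omega)
      have h6 : A.card * N < N * N := by
        apply Nat.mul_lt_mul_of_pos_right <;> omega
      rw [pow_two]
      omega
  obtain ⟨σ', hσ'⟩ := exists_cells hG1 S hS hcard
  let eG : Fin (K * (m * q)) ≃ Fin K × (Fin m × Fin q) :=
    finProdFinEquiv.symm.trans (Equiv.prodCongr (Equiv.refl _) finProdFinEquiv.symm)
  let σ : Fin L.card → Fin K × (Fin m × Fin q) := fun l => eG (σ' l)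
  have hex : ∀ (b : Fin A.card × Fin K) (i : Fin m × Fin q), ∃ l ∈ S b.1, σ l = (b.2, i) := by
    intro b i
    obtain ⟨l, hl, he⟩ := hσ' b.1 (eG.symm (b.2, i))
    refine ⟨l, hl, ?_⟩
    show eG (σ' l) = _
    rw [he, Equiv.apply_symm_apply]
  choose lf hlfS hlf using hex
  -- the places of the vertices
  obtain ⟨P, hP⟩ : ∃ P, P = κ - (1 + (m * (w + 1) + m)) := ⟨_, rfl⟩
  let f : Fin A.card ⊕ Fin L.card → Fin N := Sum.elim (fun a => (eA a : Fin N))
    (fun l => (eL l : Fin N))
  have hAne : ∀ (a : Fin A.card) (l : Fin L.card), (eA a : Fin N) ≠ (eL l : Fin N) := by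
    intro a l he
    exact (Finset.disjoint_left.mp hAL) (eA a).2 (he ▸ (eL l).2)
  have hf : Function.Injective f := by
    rintro (a | l) (a' | l') he
    · exact congrArg Sum.inl (eA.injective (Subtype.ext he))
    · exact absurd he (hAne a l')
    · exact absurd he.symm (hAne a' l)
    · exact congrArg Sum.inr (eL.injective (Subtype.ext he))
  obtain ⟨g, hg, hfg⟩ := exists_place (X2 := Gad w m q ⊕ Fin P) f hf (by
    simp only [Fintype.card_sum, Fintype.card_prod, Fintype.card_fin]
    omega)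
  let emb : Dx A.card L.card P w m q → Fin N := fun u => match u with
    | .inl a => f (.inl a)
    | .inr (.inl u) => g (.inl u)
    | .inr (.inr (.inl l)) => f (.inr l)
    | .inr (.inr (.inr p)) => g (.inr p)
  have hemb : Function.Injective emb := by
    rintro (a | u | l | p) (a' | u' | l' | p') he
    · have h1 := hf he
      simpa using h1
    · exact absurd he (hfg _ _)
    · have h1 := hf he
      simp at h1
    · exact absurd he (hfg _ _)
    · exact absurd he.symm (hfg _ _)
    · have h1 := hg he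
      simpa using h1
    · exact absurd he.symm (hfg _ _)
    · have h1 := hg he
      simp at h1
    · have h1 := hf he
      simp at h1
    · exact absurd he (hfg _ _)
    · have h1 := hf he
      simpa using h1
    · exact absurd he (hfg _ _)
    · exact absurd he.symm (hfg _ _)
    · have h1 := hg he
      simp at h1
    · exact absurd he.symm (hfg _ _)
    · have h1 := hg he
      simpa using h1
  have hne : ∀ (b : Fin A.card × Fin K) (i : Fin m × Fin q),
      emb (dpr lf b i).1 ≠ emb (dpr lf b i).2 := by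
    intro b i he
    exact hAne b.1 (lf b i) he
  have hsym : ∀ u v : Dx A.card L.card P w m q, DConst σ u v → DConst σ v u :=
    fun u v => DConst_symm σ
  refine ⟨Fin A.card × Fin K, inferInstance, z0G (DConst σ) emb,
    fun b i => edge (emb (dpr lf b i).1) (emb (dpr lf b i).2) (hne b i), ?_, ?_, ?_, ?_, ?_⟩
  · rw [Fintype.card_prod, Fintype.card_fin, Fintype.card_fin]
    have h1 : A.card * D ≤ A.card * (2 * (K * (v * (m * q)))) := Nat.mul_le_mul_left _ hKD2
    have h2 : A.card * (2 * (K * (v * (m * q)))) ≤ A.card * (2 * (K * (v * F))) := by gcongr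
    have h3 : B * (2 * v * F) ≤ (A.card * K) * (2 * v * F) := by
      calc B * (2 * v * F) = 2 * v * B * F := by ring
        _ ≤ A.card * (2 * (K * (v * F))) := by omega
        _ = (A.card * K) * (2 * v * F) := by ring
    exact Nat.le_of_mul_le_mul_right h3 (by positivity)
  · intro b b' i i' he
    refine edge_inj (dpr lf) emb hemb hne ?_ b b' i i' he
    rintro b b' i i' (he | he)
    · have h1 : b.1 = b'.1 ∧ lf b i = lf b' i' := by
        simpa [dpr] using he
      have h2 : ((b.2, i) : Fin K × (Fin m × Fin q)) = (b'.2, i') := by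
        rw [← hlf b i, ← hlf b' i', h1.2]
      have h3 := Prod.mk.inj h2
      exact ⟨Prod.ext h1.1 h3.1, h3.2⟩
    · exfalso
      simp [dpr] at he
  · intro b i
    exact z0G_edge (DConst σ) (dpr lf) emb hemb hsym hne (fun b i => by simp [dpr, DConst]) b i
  · intro b i
    have h1 := (Finset.mem_filter.mp (hlfS b i)).2
    obtain ⟨e, heU, he⟩ := (Finset.mem_filter.mp h1).2
    have h2 : edge (emb (dpr lf b i).1) (emb (dpr lf b i).2) (hne b i) = e :=
      edge_eq (hne b i) e he
    show edge (emb (dpr lf b i).1) (emb (dpr lf b i).2) (hne b i) ∈ U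
    rw [h2]
    exact heU
  · intro x
    have h1 := clique_iff_transversal (DConst σ) (dpr lf) emb hemb hsym hne (dcol σ)
      (fun x u v hx => dcol_ne σ lf hlf x u v hx) (κ := κ) (by
        rw [card_col, hP]
        omega) (by omega) x
    rw [← deg_transversal hw hm hq σ lf hlf x, ← h1]

end Pool.Agent.Lib_MP_22d2c8_ln
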