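import Pool.Agent.Lib_MP_22d2c8_ln.Blk

/-!
# Negations above a set of input variables: the graph for a matching
-/

namespace Pool.Agent.Lib_MP_22d2c8_ln

open Finset
open Pool.Agent.Lib_MP_22d2c8_clq

section P4
variable {B P w m q : ℕ}

/-- The vertices: the gadget, leaves (true) and centres (false), additional vertices. -/
abbrev Mx (B P w m q : ℕ) : Type :=
  Gad w m q ⊕ ((Bool × (Fin B × (Fin m × Fin q))) ⊕ Fin P)

/-- The constant edges. -/
def MConst : Mx B P w m q → Mx B P w m q → Prop
  | .inl u, .inl u' => GAdj u u'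
  | .inl u, .inr (.inl (t, (_, i))) => t = true → u.2.1 = Fin.last w → u.1 = i.1 → u.2.2.1 = i.2
  | .inl _, .inr (.inr _) => True
  | .inr (.inl (t, (_, i))), .inl u => t = true → u.2.1 = Fin.last w → u.1 = i.1 → u.2.2.1 = i.2
  | .inr (.inl (_, (b, i))), .inr (.inl (_, (b', i'))) => b = b' ∧ i.1 ≠ i'.1
  | .inr (.inl _), .inr (.inr _) => True
  | .inr (.inr _), .inl _ => True
  | .inr (.inr _), .inr (.inl _) => True
  | .inr (.inr p), .inr (.inr p') => p ≠ p'

/-- The ends of the variable edge number `i` of the block `b`. -/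
def mpr (b : Fin B) (i : Fin m × Fin q) : Mx B P w m q × Mx B P w m q :=
  (.inr (.inl (true, (b, i))), .inr (.inl (false, (b, i))))

/-- The colours. -/
abbrev MCol (P w m : ℕ) : Type := (Fin m × Fin (w + 1)) ⊕ ((Bool × Fin m) ⊕ Fin P)

/-- The colour of a vertex. -/
def mcol : Mx B P w m q → MCol P w m
  | .inl u => .inl (u.1, u.2.1)
  | .inr (.inl (t, (_, i))) => .inr (.inl (t, i.1))
  | .inr (.inr p) => .inr (.inr p)

theorem MConst_symm {u v : Mx B P w m q} (h : MConst u v) : MConst v u := by
  rcases u with u | ⟨t, b, i⟩ | p <;> rcases v with u' | ⟨t', b', i'⟩ | p' <;>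
    simp only [MConst] at h ⊢
  · exact h.symm
  · exact h
  · exact h
  · exact ⟨h.1.symm, fun e => h.2 e.symm⟩
  · exact fun e => h e.symm

theorem mcol_ne (x : Fin B → Fin m × Fin q → Prop) (u v : Mx B P w m q)
    (h : FullG MConst mpr x u v) : mcol u ≠ mcol v := by
  rcases h with h | ⟨b, i, -, h | h⟩
  · rcases u with u | ⟨t, b, i⟩ | p <;> rcases v with u' | ⟨t', b', i'⟩ | p' <;>
      simp only [MConst, mcol] at h ⊢
    · intro e
      exact h.2.2.1 (by simpa using e)
    · simp
    · simp
    · simp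
    · intro e
      have e' : t = t' ∧ i.1 = i'.1 := by simpa using e
      exact h.2 e'.2
    · simp
    · simp
    · simp
    · intro e
      exact h (by simpa using e)
  · rw [mpr, Prod.mk.injEq] at h
    rw [← h.1, ← h.2]
    simp [mcol]
  · rw [mpr, Prod.mk.injEq] at h
    rw [← h.1, ← h.2]
    simp [mcol]

theorem card_mcol : Fintype.card (MCol P w m) = m * (w + 1) + (2 * m + P) := by
  simp

/-- A leaf and another leaf: they belong to the same block. -/
private theorem madj_leaf {x : Fin B → Fin m × Fin q → Prop} {b b' : Fin B} {i i' : Fin m × Fin q}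
    (h : FullG (MConst (P := P) (w := w)) mpr x (.inr (.inl (true, (b, i))))
      (.inr (.inl (true, (b', i'))))) : b = b' := by
  rcases h with h | ⟨b1, i1, -, h | h⟩
  · exact h.1
  · rw [mpr, Prod.mk.injEq] at h
    exact absurd h.2 (by simp)
  · rw [mpr, Prod.mk.injEq] at h
    exact absurd h.2 (by simp)

/-- A leaf and a centre in the same row: the variable edge. -/
private theorem madj_var {x : Fin B → Fin m × Fin q → Prop} {b b' : Fin B} {j : Fin m} {c c' : Fin q}
    (h : FullG (MConst (P := P) (w := w)) mpr x (.inr (.inl (true, (b, (j, c)))))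
      (.inr (.inl (false, (b', (j, c')))))) : x b (j, c) := by
  rcases h with h | ⟨b1, i1, hx, h | h⟩
  · exact absurd rfl h.2
  · rw [mpr, Prod.mk.injEq] at h
    have h1 : b1 = b ∧ i1 = (j, c) := by simpa using h.1
    rw [← h1.1, ← h1.2]
    exact hx
  · rw [mpr, Prod.mk.injEq] at h
    exact absurd h.1 (by simp)

private theorem madj_gad {x : Fin B → Fin m × Fin q → Prop} {u u' : Gad w m q}
    (h : FullG (MConst (P := P)) mpr x (.inl u) (.inl u')) : GAdj u u' := by
  rcases h with h | ⟨b1, i1, -, h | h⟩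
  · exact h
  · rw [mpr, Prod.mk.injEq] at h
    exact absurd h.1 (by simp)
  · rw [mpr, Prod.mk.injEq] at h
    exact absurd h.1 (by simp)

private theorem madj_gad_leaf {x : Fin B → Fin m × Fin q → Prop} {b : Fin B} {i : Fin m × Fin q}
    {u : Gad w m q} (h : FullG (MConst (P := P)) mpr x (.inl u) (.inr (.inl (true, (b, i))))) :
    u.2.1 = Fin.last w → u.1 = i.1 → u.2.2.1 = i.2 := by
  rcases h with h | ⟨b1, i1, -, h | h⟩
  · exact h rfl
  · rw [mpr, Prod.mk.injEq] at h
    exact absurd h.1 (by simp)
  · rw [mpr, Prod.mk.injEq] at h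
    exact absurd h.2 (by simp)

theorem match_transversal (hw : 1 ≤ w) (hm : 1 ≤ m) (hq : 0 < q)
    (x : Fin B → Fin m × Fin q → Prop) :
    (∃ g : MCol P w m → Mx B P w m q, (∀ c, mcol (g c) = c) ∧
      ∀ c c', c ≠ c' → FullG MConst mpr x (g c) (g c')) ↔ ∃ b, HasPoly w m q (x b) := by
  constructor
  · rintro ⟨g, hcol, hadj⟩
    -- the gadget vertices
    have hgad : ∀ (j : Fin m) (t : Fin (w + 1)), ∃ u : Gad w m q,
        g (.inl (j, t)) = .inl u ∧ u.1 = j ∧ u.2.1 = t := by
      intro j t
      have h := hcol (.inl (j, t))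
      rcases hg : g (.inl (j, t)) with u | ⟨t', b, i⟩ | p
      · rw [hg] at h
        have h2 : u.1 = j ∧ u.2.1 = t := by simpa [mcol] using h
        exact ⟨u, rfl, h2.1, h2.2⟩
      · rw [hg] at h
        exact absurd h (by simp [mcol])
      · rw [hg] at h
        exact absurd h (by simp [mcol])
    choose Q hQ hQ1 hQ2 using hgad
    -- leaves and centres
    have hlf : ∀ (t : Bool) (j : Fin m), ∃ (b : Fin B) (c : Fin q),
        g (.inr (.inl (t, j))) = .inr (.inl (t, (b, (j, c)))) := by
      intro t j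
      have h := hcol (.inr (.inl (t, j)))
      rcases hg : g (.inr (.inl (t, j))) with u | ⟨t', b, i⟩ | p
      · rw [hg] at h
        exact absurd h (by simp [mcol])
      · rw [hg] at h
        have h2 : t' = t ∧ i.1 = j := by simpa [mcol] using h
        refine ⟨b, i.2, ?_⟩
        rw [← h2.1, ← h2.2]
      · rw [hg] at h
        exact absurd h (by simp [mcol])
    choose k c hk using hlf
    obtain ⟨a, ha⟩ := exists_poly hw hm hq Q hQ1 hQ2 (fun j t j' t' hne => by
      have h := hadj (.inl (j, t)) (.inl (j', t')) (by simpa using hne)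
      rw [hQ, hQ] at h
      exact madj_gad h)
    let j0 : Fin m := ⟨0, hm⟩
    have hkk : ∀ j, k true j = k true j0 := by
      intro j
      by_cases hj : j = j0
      · rw [hj]
      · have h := hadj (.inr (.inl (true, j))) (.inr (.inl (true, j0))) (by simpa using hj)
        rw [hk, hk] at h
        exact madj_leaf h
    refine ⟨k true j0, a, ?_⟩
    intro j c' hc'
    have h1 := hadj (.inr (.inl (true, j))) (.inr (.inl (false, j))) (by simp)
    rw [hk, hk] at h1
    have h2 := madj_var h1
    rw [hkk] at h2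
    have h3 := hadj (.inl (j, Fin.last w)) (.inr (.inl (true, j))) (by simp)
    rw [hQ, hk] at h3
    have h4 := madj_gad_leaf h3 (hQ2 _ _) (hQ1 _ _)
    rw [ha j] at h4
    have h5 : c' = c true j := (Fin.ext hc').trans h4
    rw [h5]
    exact h2
  · rintro ⟨b, a, ha⟩
    let val : Fin m → Fin q := fun j =>
      ⟨(∑ l, (a l : ℕ) * (j : ℕ) ^ (l : ℕ)) % q, Nat.mod_lt _ hq⟩
    have hsymm : ∀ {u v : Mx B P w m q}, FullG MConst mpr x u v → FullG MConst mpr x v u := by
      rintro u v (h | ⟨b1, i1, hx, h⟩)
      · exact Or.inl (MConst_symm h)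
      · exact Or.inr ⟨b1, i1, hx, h.symm⟩
    have hgl : ∀ (j : Fin m) (t : Fin (w + 1)) (s : Bool) (j' : Fin m),
        FullG (MConst (P := P)) mpr x (.inl (pick hq a j t)) (.inr (.inl (s, (b, (j', val j'))))) := by
      intro j t s j'
      refine Or.inl ?_
      intro _ h1 h2
      have h1' : t = Fin.last w := h1
      have h2' : j = j' := h2
      subst h1' h2'
      rw [pick_last]
    have hvar : ∀ j : Fin m, FullG (MConst (P := P) (w := w)) mpr x
        (.inr (.inl (true, (b, (j, val j))))) (.inr (.inl (false, (b, (j, val j))))) := fun j =>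
      Or.inr ⟨b, (j, val j), ha j _ rfl, Or.inl rfl⟩
    refine ⟨fun c => match c with
      | .inl (j, t) => .inl (pick hq a j t)
      | .inr (.inl (s, j)) => .inr (.inl (s, (b, (j, val j))))
      | .inr (.inr p) => .inr (.inr p), ?_, ?_⟩
    · rintro (⟨j, t⟩ | ⟨s, j⟩ | p)
      · rfl
      · rfl
      · rfl
    · rintro (⟨j, t⟩ | ⟨s, j⟩ | p) (⟨j', t'⟩ | ⟨s', j'⟩ | p') hne
      · exact Or.inl (pick_adj hq a j j' t t' (fun e => hne (by rw [e])))
      · exact hgl j t s' j'
      · exact Or.inl trivial
      · exact hsymm (hgl j' t' s j)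
      · by_cases hj : j = j'
        · subst hj
          rcases s with _ | _ <;> rcases s' with _ | _
          · exact absurd rfl hne
          · exact hsymm (hvar j)
          · exact hvar j
          · exact absurd rfl hne
        · exact Or.inl ⟨rfl, hj⟩
      · exact Or.inl trivial
      · exact Or.inl trivial
      · exact Or.inl trivial
      · exact Or.inl (fun e => hne (by rw [e]))

end P4

end Pool.Agent.Lib_MP_22d2c8_ln
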