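import Pool.Agent.Lib_MP_22d2c8_ln.Emb
import Pool.Agent.Lib_MP_22d2c8_ln.Match

/-!
# Negations above a set of input variables: blocks on a matching
-/

namespace Pool.Agent.Lib_MP_22d2c8_ln

open Finset
open Pool.Agent.Lib_MP_22d2c8_clq

theorem blocks_matching {N B F κ w m q : ℕ} (U : Set (EdgeVar N)) (hw : 1 ≤ w) (hm : 1 ≤ m)
    (hq : 0 < q) (hmq : m * q ≤ F)
    (hG : 8 * (m * ((w + 1) * (q * q))) ≤ N) (hκ1 : m * (w + 1) + 2 * m ≤ κ)
    (hκ2 : 2 * κ ≤ N) (M : Finset (EdgeVar N)) (hM : ∀ e ∈ M, e ∈ U)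
    (hd : ∀ e ∈ M, ∀ e' ∈ M, e ≠ e' → e.1.1 ≠ e'.1.1 ∧ e.1.1 ≠ e'.1.2 ∧ e.1.2 ≠ e'.1.1 ∧
      e.1.2 ≠ e'.1.2) (h1 : 4 * B * F ≤ M.card) : Blocks U B κ w m q := by
  classical
  obtain ⟨P, hP⟩ : ∃ P, κ = m * (w + 1) + (2 * m + P) :=
    ⟨κ - (m * (w + 1) + 2 * m), by omega⟩
  -- the two ends of the edges of the matching
  let endOf : Bool × {e // e ∈ M} → Fin N := fun a => if a.1 then a.2.1.1.1 else a.2.1.1.2
  have hend : Function.Injective endOf := by
    rintro ⟨t, e, he⟩ ⟨t', e', he'⟩ h
    by_cases hee : e = e'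
    · subst hee
      have hlt : e.1.1 ≠ e.1.2 := ne_of_lt e.2
      cases t <;> cases t'
      · rfl
      · exact absurd h.symm hlt
      · exact absurd h hlt
      · rfl
    · exfalso
      obtain ⟨a1, a2, a3, a4⟩ := hd e he e' he' hee
      cases t <;> cases t'
      · exact a4 h
      · exact a3 h
      · exact a2 h
      · exact a1 h
  have h2M : 2 * M.card ≤ N := by
    have h := Fintype.card_le_of_injective endOf hend
    simpa using h
  -- the cells
  have hBF : B * (m * q) ≤ B * F := Nat.mul_le_mul_left _ hmq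
  have h1' : 4 * (B * F) ≤ M.card := by
    rw [← mul_assoc]
    exact h1
  have hcell : Nonempty ((Fin B × (Fin m × Fin q)) ↪ {e // e ∈ M}) := by
    apply Function.Embedding.nonempty_of_card_le
    simp only [Fintype.card_prod, Fintype.card_fin, Fintype.card_coe]
    omega
  obtain ⟨cell⟩ := hcell
  let f : Bool × (Fin B × (Fin m × Fin q)) → Fin N := fun a => endOf (a.1, cell a.2)
  have hf : Function.Injective f := by
    rintro ⟨t, a⟩ ⟨t', a'⟩ h
    have h2 := hend h
    have h3 : t = t' := congrArg Prod.fst h2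
    have h4 : cell a = cell a' := congrArg Prod.snd h2
    rw [h3, cell.injective h4]
  have hcard : Fintype.card (Bool × (Fin B × (Fin m × Fin q))) +
      Fintype.card (Gad w m q ⊕ Fin P) ≤ N := by
    have e1 : Fintype.card (Bool × (Fin B × (Fin m × Fin q))) = 2 * (B * (m * q)) := by
      simp
    have e2 : Fintype.card (Gad w m q ⊕ Fin P) = m * ((w + 1) * (q * q)) + P := by
      simp [Gad]
    rw [e1, e2]
    have h5 : P ≤ κ := by omega
    omega
  obtain ⟨g, hg, hfg⟩ := exists_place f hf hcard
  let emb : Mx B P w m q → Fin N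
    | .inl u => g (.inl u)
    | .inr (.inl a) => f a
    | .inr (.inr p) => g (.inr p)
  have hemb : Function.Injective emb := by
    rintro (u | a | p) (u' | a' | p') h
    · have h' : g (.inl u) = g (.inl u') := h
      rw [Sum.inl.inj (hg h')]
    · have h' : g (.inl u) = f a' := h
      exact absurd h'.symm (hfg _ _)
    · have h' : g (.inl u) = g (.inr p') := h
      exact absurd (hg h') (by simp)
    · have h' : f a = g (.inl u') := h
      exact absurd h' (hfg _ _)
    · have h' : f a = f a' := h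
      rw [hf h']
    · have h' : f a = g (.inr p') := h
      exact absurd h' (hfg _ _)
    · have h' : g (.inr p) = g (.inl u') := h
      exact absurd (hg h') (by simp)
    · have h' : g (.inr p) = f a' := h
      exact absurd h'.symm (hfg _ _)
    · have h' : g (.inr p) = g (.inr p') := h
      rw [Sum.inr.inj (hg h')]
  have hne : ∀ (b : Fin B) (i : Fin m × Fin q),
      emb (mpr (P := P) (w := w) b i).1 ≠ emb (mpr (P := P) (w := w) b i).2 := by
    intro b i h
    have h' : (mpr (P := P) (w := w) b i).1 = (mpr (P := P) (w := w) b i).2 := hemb h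
    simp [mpr] at h'
  have hpr : ∀ (b b' : Fin B) (i i' : Fin m × Fin q),
      (mpr (P := P) (w := w) b i = mpr b' i' ∨ mpr (P := P) (w := w) b i = (mpr b' i').swap) →
        b = b' ∧ i = i' := by
    intro b b' i i' h
    rcases h with h | h
    · have h2 := congrArg Prod.fst h
      simpa [mpr] using h2
    · have h2 := congrArg Prod.fst h
      simp [mpr] at h2
  have hCA : ∀ (b : Fin B) (i : Fin m × Fin q),
      ¬ MConst (mpr (P := P) (w := w) b i).1 (mpr (P := P) (w := w) b i).2 := by
    rintro b i ⟨-, h⟩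
    exact h rfl
  refine ⟨Fin B, inferInstance, z0G MConst emb,
    fun b i => edge (emb (mpr b i).1) (emb (mpr b i).2) (hne b i), by simp, ?_, ?_, ?_, ?_⟩
  · intro b b' i i' h
    exact edge_inj mpr emb hemb hne hpr b b' i i' h
  · intro b i
    exact z0G_edge MConst mpr emb hemb (fun _ _ h => MConst_symm h) hne hCA b i
  · intro b i
    have h3 : edge (emb (mpr b i).1) (emb (mpr b i).2) (hne b i) = (cell (b, i)).1 := by
      have hlt : (cell (b, i)).1.1.1 < (cell (b, i)).1.1.2 := (cell (b, i)).1.2
      have e3 : emb (mpr (P := P) (w := w) b i).1 = (cell (b, i)).1.1.1 := rfl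
      have e4 : emb (mpr (P := P) (w := w) b i).2 = (cell (b, i)).1.1.2 := rfl
      have hlt' : emb (mpr (P := P) (w := w) b i).1 < emb (mpr (P := P) (w := w) b i).2 := by
        rw [e3, e4]
        exact hlt
      unfold edge
      rw [dif_pos hlt']
      apply Subtype.ext
      exact Prod.ext e3 e4
    have h4 := hM _ (cell (b, i)).2
    rw [← h3] at h4
    exact h4
  · intro x
    have hκ3 : 2 ≤ κ := by
      have : 1 ≤ m * (w + 1) := Nat.mul_pos hm (Nat.succ_pos w)
      omega
    rw [← match_transversal (P := P) hw hm hq x]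
    exact clique_iff_transversal (Cl := MCol P w m) MConst mpr emb hemb
      (fun _ _ h => MConst_symm h) hne mcol (fun x u v h => mcol_ne x u v h)
      (card_mcol.trans hP.symm) hκ3 x

end Pool.Agent.Lib_MP_22d2c8_ln
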