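import Pool.Agent.Lib_MP_22d2c8_ln.Blk
import Pool.Agent.Lib_MP_22d2c8_loc.StarG
import Pool.Agent.Lib_MP_22d2c8_loc.Forest
import Pool.Agent.Lib_MP_22d2c8_loc.Sort

/-!
# Negations above a set of input variables: blocks in a set of edges which touches many vertices

A set of edges which touches `h` vertices contains a star forest with at least `h / 2` leaves
(`exists_forest`); the leaves, sorted by centres, are cut into arrays (`star_of_forest`), and the
clique function contains the OR of the functions of the arrays (`star_clique`).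
-/

namespace Pool.Agent.Lib_MP_22d2c8_ln

open Finset
open Pool.Agent.Lib_MP_22d2c8_clq

open Classical in
theorem blocks_touched {N B F κ w m q : ℕ} (U : Set (EdgeVar N)) (hw : 1 ≤ w) (hm : 1 ≤ m)
    (hq : 0 < q) (hmq : m * q ≤ F) (_hF : 1 ≤ F) (hNF : 100 * F ≤ N)
    (hG : 8 * (m * ((w + 1) * (q * q))) ≤ N) (hκ1 : m * (w + 1) + m + F ≤ κ)
    (hκ2 : 2 * κ ≤ N) (h1 : 8 * B * F ≤ touched U) : Blocks U B κ w m q := by
  set U' : Finset (EdgeVar N) := Finset.univ.filter (fun e => e ∈ U) with hU'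
  have hmem : ∀ e, e ∈ U' ↔ e ∈ U := by
    intro e
    rw [hU', Finset.mem_filter]
    exact ⟨fun h => h.2, fun h => ⟨Finset.mem_univ _, h⟩⟩
  have ht : (Lib_MP_22d2c8_loc.touched U').card = touched U := by
    unfold Lib_MP_22d2c8_loc.touched touched
    congr 1
    ext i
    simp only [Finset.mem_union, Finset.mem_image, Finset.mem_filter, Finset.mem_univ, true_and]
    constructor
    · rintro (⟨e, he, rfl⟩ | ⟨e, he, rfl⟩)
      · exact ⟨e, (hmem e).mp he, Or.inl rfl⟩
      · exact ⟨e, (hmem e).mp he, Or.inr rfl⟩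
    · rintro ⟨e, he, rfl | rfl⟩
      · exact Or.inl ⟨e, (hmem e).mpr he, rfl⟩
      · exact Or.inr ⟨e, (hmem e).mpr he, rfl⟩
  have htN : touched U ≤ N := by
    rw [← ht]
    calc (Lib_MP_22d2c8_loc.touched U').card ≤ (Finset.univ : Finset (Fin N)).card :=
          Finset.card_le_card (Finset.subset_univ _)
      _ = N := by simp
  obtain ⟨W, c, hW, hc, hcU⟩ := Lib_MP_22d2c8_loc.exists_forest U'
  rw [ht] at hW
  have hBmq : B * (m * q) ≤ B * F := Nat.mul_le_mul_left _ hmq
  have h8 : 8 * B * F = 8 * (B * F) := by ring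
  have hmq1 : 1 ≤ m * q := Nat.mul_pos hm hq
  obtain ⟨Pt, hPt, S, hS1, hS2⟩ := Lib_MP_22d2c8_loc.star_of_forest (K := B) hmq1 W c hc
    (by omega) U' hcU
  have hκP : m * (w + 1) + m + m * q + (κ - (m * (w + 1) + m + m * q)) = κ := by omega
  obtain ⟨z0, φ, e1, e2, e3, e4⟩ := Lib_MP_22d2c8_loc.star_clique
    (P := κ - (m * (w + 1) + m + m * q)) hw hm hq S U' hS2 (by
      rw [Fintype.card_unit, one_mul]
      omega)
  rw [hκP] at e4
  refine ⟨Unit × Fin B, inferInstance, z0, φ, ?_, e1, e2, fun b i => (hmem _).mp (e3 b i), ?_⟩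
  · simp
  · intro x
    exact e4 x _ (fun j => by rw [decide_eq_true_eq])

end Pool.Agent.Lib_MP_22d2c8_ln
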