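import Pool.Agent.Lib_MP_22d2c8_clq.CliqueBound

/-!
# Negations above a set of input variables: definitions
-/

namespace Pool.Agent.Lib_MP_22d2c8_ln

open Finset
open Pool.Agent.Lib_MP_22d2c8_gen (Op)
open Pool.Agent.Lib_MP_22d2c8_clq

section Nets

variable {V : Type} {s : ℕ}

/-- The vertex depends on `U`: there is a path from an input variable in `U` to the vertex. -/
inductive Above (C : Net V s) (U : Set V) : V ⊕ Fin s → Prop
  /-- the variables in `U` -/
  | var (j : V) (hj : j ∈ U) : Above C U (Sum.inl j)
  /-- a gate with a predecessor which depends on `U` -/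
  | gate (g : Fin s) (u : V ⊕ Fin s) (hu : u ∈ (C.op g).preds) (h : Above C U u) :
      Above C U (Sum.inr g)

open Classical in
/-- Along every increasing chain of inputs which agree with `z` outside `U` the vector of the
values of the entry vertices changes at most `T` times. -/
def ChangesOnLE (C : Net V s) (U : Set V) (z : V → Bool) (T : ℕ) : Prop :=
  ∀ (m : ℕ) (x : ℕ → V → Bool) (a : ℕ → V ⊕ Fin s → Bool),
    (∀ i < m, ∀ j, x i j = true → x (i + 1) j = true) →
    (∀ i ≤ m, ∀ j, j ∉ U → x i j = z j) → (∀ i ≤ m, C.IsRun (x i) (a i)) →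
    ((Finset.range m).filter (fun i => ∃ u, C.IsEntry u ∧ a i u ≠ a (i + 1) u)).card ≤ T

open Classical in
/-- The number of wires which enter arbitrary gates and come from vertices which depend on `U`
(the number of NOT gates which depend on `U` if all the arbitrary gates are NOT gates). -/
noncomputable def wiresOn (C : Net V s) (U : Set V) : ℕ :=
  ∑ g ∈ Finset.univ.filter (fun g => (C.op g).isArb = true),
    ((C.op g).preds.filter (fun u => Above C U u)).card

open Classical in
/-- The product over the levels of one plus the number of entry vertices of the level which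
depend on `U`. -/
noncomputable def prodOn [Fintype V] (C : Net V s) (U : Set V) (M : ℕ)
    (lev : V ⊕ Fin s → ℕ) : ℕ :=
  ∏ l ∈ Finset.range M,
    (1 + (Finset.univ.filter (fun u => C.IsEntry u ∧ Above C U u ∧ lev u = l)).card)

end Nets

open Classical in
/-- The number of the vertices which are ends of edges in `U`. -/
noncomputable def touched {N : ℕ} (U : Set (EdgeVar N)) : ℕ :=
  (Finset.univ.filter (fun i : Fin N => ∃ e ∈ U, e.1.1 = i ∨ e.1.2 = i)).card

/-- The set `U` of edge variables is rich (for blocks of size `F`, their number `B`, cliques with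
`κ` vertices and circuits of size at most `2 ^ v`): it contains all the edges between two disjoint
sets `A` and `L` of vertices with `16 * B * F ≤ |A| * |L|` and `2 * F ≤ |L|`, or `2 * F ≤ κ` and
`U` touches at least `8 * B * F` vertices or has at least `2 ^ 13 * v * B * F ^ 2` elements. -/
def Rich {N : ℕ} (U : Finset (EdgeVar N)) (B F v κ : ℕ) : Prop :=
  (∃ A L : Finset (Fin N), Disjoint A L ∧
    (∀ e : EdgeVar N, (e.1.1 ∈ A ∧ e.1.2 ∈ L) ∨ (e.1.1 ∈ L ∧ e.1.2 ∈ A) → e ∈ U) ∧
    16 * B * F ≤ A.card * L.card ∧ 2 * F ≤ L.card) ∨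
  (2 * F ≤ κ ∧ (8 * B * F ≤ touched (U : Set (EdgeVar N)) ∨
    2 ^ 13 * v * B * F ^ 2 ≤ U.card))

end Pool.Agent.Lib_MP_22d2c8_ln
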