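import Pool.Agent.Lib_MP_22d2c8_ln.Blk

/-!
# Coloured graphs with variable edges inside `Fin N`
-/

namespace Pool.Agent.Lib_MP_22d2c8_ln

open Finset
open Pool.Agent.Lib_MP_22d2c8_clq

section P3
variable {N : ℕ} {X I E Cl : Type}

theorem edge_ends (i j : Fin N) (h : i ≠ j) :
    ((edge i j h).1.1 = i ∧ (edge i j h).1.2 = j) ∨
      ((edge i j h).1.1 = j ∧ (edge i j h).1.2 = i) := by
  unfold edge
  split_ifs with h'
  · exact Or.inl ⟨rfl, rfl⟩
  · exact Or.inr ⟨rfl, rfl⟩

theorem edge_eq_of_lt {i j : Fin N} (h : i < j) (h' : i ≠ j) : edge i j h' = ⟨(i, j), h⟩ := by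
  unfold edge
  rw [dif_pos h]

theorem edge_comm (i j : Fin N) (h : i ≠ j) : edge i j h = edge j i h.symm := by
  unfold edge
  rcases lt_or_gt_of_ne h with h1 | h1
  · rw [dif_pos h1, dif_neg (not_lt.mpr h1.le)]
  · rw [dif_neg (not_lt.mpr h1.le), dif_pos h1]

theorem edge_eq_edge {a b c d : Fin N} (h : a ≠ b) (h' : c ≠ d)
    (he : edge a b h = edge c d h') : (a = c ∧ b = d) ∨ (a = d ∧ b = c) := by
  rcases edge_ends a b h with ⟨h1, h2⟩ | ⟨h1, h2⟩ <;>
    rcases edge_ends c d h' with ⟨h3, h4⟩ | ⟨h3, h4⟩ <;>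
    rw [he] at h1 h2
  · exact Or.inl ⟨h1.symm.trans h3, h2.symm.trans h4⟩
  · exact Or.inr ⟨h1.symm.trans h3, h2.symm.trans h4⟩
  · exact Or.inr ⟨h2.symm.trans h4, h1.symm.trans h3⟩
  · exact Or.inl ⟨h2.symm.trans h4, h1.symm.trans h3⟩

theorem FullG.symm {CA : X → X → Prop} {pr : I → E → X × X} {x : I → E → Prop}
    (hsym : ∀ u v, CA u v → CA v u) {u v : X} (h : FullG CA pr x u v) : FullG CA pr x v u := by
  rcases h with h | ⟨b, i, hx, h⟩
  · exact Or.inl (hsym _ _ h)
  · exact Or.inr ⟨b, i, hx, h.symm⟩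

/-- The edge variable between two vertices of `X` is filled iff they are adjacent. -/
theorem fillIn_iff (CA : X → X → Prop) (pr : I → E → X × X)
    (emb : X → Fin N) (hemb : Function.Injective emb) (hsym : ∀ u v, CA u v → CA v u)
    (hne : ∀ b i, emb (pr b i).1 ≠ emb (pr b i).2) (x : I → E → Prop) (i j : Fin N)
    (hij : i < j) :
    fillIn (z0G CA emb) (fun b i => edge (emb (pr b i).1) (emb (pr b i).2) (hne b i)) x
      ⟨(i, j), hij⟩ ↔ ∃ u v, emb u = i ∧ emb v = j ∧ FullG CA pr x u v := by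
  unfold fillIn z0G
  constructor
  · rintro (⟨u, v, h, hu, hv⟩ | ⟨b, k, hx, he⟩)
    · exact ⟨u, v, hu, hv, Or.inl h⟩
    · have he' : edge (emb (pr b k).1) (emb (pr b k).2) (hne b k) = edge i j hij.ne := by
        rw [edge_eq_of_lt hij]
        exact he
      rcases edge_eq_edge _ _ he' with ⟨h1, h2⟩ | ⟨h1, h2⟩
      · exact ⟨(pr b k).1, (pr b k).2, h1, h2, Or.inr ⟨b, k, hx, Or.inl rfl⟩⟩
      · exact ⟨(pr b k).2, (pr b k).1, h2, h1, Or.inr ⟨b, k, hx, Or.inr rfl⟩⟩
  · rintro ⟨u, v, hu, hv, h | ⟨b, k, hx, h | h⟩⟩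
    · exact Or.inl ⟨u, v, h, hu, hv⟩
    · refine Or.inr ⟨b, k, hx, ?_⟩
      have h1 : emb (pr b k).1 = i := by rw [h]; exact hu
      have h2 : emb (pr b k).2 = j := by rw [h]; exact hv
      simp only [h1, h2]
      exact edge_eq_of_lt hij _
    · refine Or.inr ⟨b, k, hx, ?_⟩
      have h1 : emb (pr b k).1 = j := by rw [h]; exact hv
      have h2 : emb (pr b k).2 = i := by rw [h]; exact hu
      simp only [h1, h2]
      rw [edge_comm]
      exact edge_eq_of_lt hij _

open Classical in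
theorem adj_iff (CA : X → X → Prop) (pr : I → E → X × X)
    (emb : X → Fin N) (hemb : Function.Injective emb) (hsym : ∀ u v, CA u v → CA v u)
    (hne : ∀ b i, emb (pr b i).1 ≠ emb (pr b i).2) (x : I → E → Prop) (i j : Fin N) :
    (graphOf (fun e => decide (fillIn (z0G CA emb)
      (fun b i => edge (emb (pr b i).1) (emb (pr b i).2) (hne b i)) x e))).Adj i j ↔
      i ≠ j ∧ ∃ u v, emb u = i ∧ emb v = j ∧ FullG CA pr x u v := by
  show ((∃ h : i < j, _ = true) ∨ ∃ h : j < i, _ = true) ↔ _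
  simp only [decide_eq_true_eq]
  constructor
  · rintro (⟨h, hf⟩ | ⟨h, hf⟩)
    · exact ⟨h.ne, (fillIn_iff CA pr emb hemb hsym hne x i j h).mp hf⟩
    · obtain ⟨u, v, hu, hv, hF⟩ := (fillIn_iff CA pr emb hemb hsym hne x j i h).mp hf
      exact ⟨h.ne', v, u, hv, hu, hF.symm hsym⟩
  · rintro ⟨hij, u, v, hu, hv, hF⟩
    rcases lt_or_gt_of_ne hij with h | h
    · exact Or.inl ⟨h, (fillIn_iff CA pr emb hemb hsym hne x i j h).mpr ⟨u, v, hu, hv, hF⟩⟩
    · exact Or.inr ⟨h, (fillIn_iff CA pr emb hemb hsym hne x j i h).mpr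
        ⟨v, u, hv, hu, hF.symm hsym⟩⟩

open Classical in
/-- The clique function at a filled input. -/
theorem clique_iff_transversal [Finite X] [Fintype Cl] (CA : X → X → Prop) (pr : I → E → X × X)
    (emb : X → Fin N) (hemb : Function.Injective emb) (hsym : ∀ u v, CA u v → CA v u)
    (hne : ∀ b i, emb (pr b i).1 ≠ emb (pr b i).2) (col : X → Cl)
    (hcol : ∀ x u v, FullG CA pr x u v → col u ≠ col v) {κ : ℕ} (hκ : Fintype.card Cl = κ)
    (hκ2 : 2 ≤ κ) (x : I → E → Prop) :
    HasClique N κ (fun e => decide (fillIn (z0G CA emb)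
      (fun b i => edge (emb (pr b i).1) (emb (pr b i).2) (hne b i)) x e)) ↔
      ∃ g : Cl → X, (∀ c, col (g c) = c) ∧ ∀ c c', c ≠ c' → FullG CA pr x (g c) (g c') := by
  constructor
  · rintro ⟨S, hS, hcard⟩
    -- every vertex of the clique is in the image of `emb`
    have hex : ∀ i : S, ∃ u, emb u = i.1 := by
      rintro ⟨i, hi⟩
      obtain ⟨j, hj, hji⟩ := Finset.exists_mem_ne (by omega : 1 < S.card) i
      have h := hS (Finset.mem_coe.mpr hi) (Finset.mem_coe.mpr hj) hji.symm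
      obtain ⟨_, u, v, hu, _, _⟩ := (adj_iff CA pr emb hemb hsym hne x i j).mp h
      exact ⟨u, hu⟩
    choose u hu using hex
    have hfull : ∀ i j : S, i ≠ j → FullG CA pr x (u i) (u j) := by
      intro i j hij
      have h := hS (Finset.mem_coe.mpr i.2) (Finset.mem_coe.mpr j.2)
        (fun h => hij (Subtype.ext h))
      obtain ⟨_, a, b, ha, hb, hF⟩ := (adj_iff CA pr emb hemb hsym hne x i j).mp h
      have h1 : a = u i := hemb (ha.trans (hu i).symm)
      have h2 : b = u j := hemb (hb.trans (hu j).symm)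
      rw [h1, h2] at hF
      exact hF
    have hinj : Function.Injective (fun i : S => col (u i)) := by
      intro i j h
      by_contra hij
      exact hcol x _ _ (hfull i j hij) h
    have hbij : Function.Bijective (fun i : S => col (u i)) := by
      rw [Fintype.bijective_iff_injective_and_card]
      refine ⟨hinj, ?_⟩
      rw [Fintype.card_coe, hcard, hκ]
    obtain ⟨inv, -, hr⟩ := Function.bijective_iff_has_inverse.mp hbij
    refine ⟨fun c => u (inv c), fun c => hr c, fun c c' hc => hfull _ _ ?_⟩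
    intro h
    apply hc
    rw [← hr c, ← hr c', h]
  · rintro ⟨g, hg, hF⟩
    have hinj : Function.Injective (fun c => emb (g c)) := by
      intro c c' h
      have h1 := hemb h
      rw [← hg c, ← hg c', h1]
    refine ⟨Finset.univ.image (fun c => emb (g c)), ?_, ?_⟩
    · intro i hi j hj hij
      rw [Finset.mem_coe, Finset.mem_image] at hi hj
      obtain ⟨c, _, rfl⟩ := hi
      obtain ⟨c', _, rfl⟩ := hj
      refine (adj_iff CA pr emb hemb hsym hne x _ _).mpr ⟨hij, g c, g c', rfl, rfl, hF c c' ?_⟩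
      rintro rfl
      exact hij rfl
    · rw [Finset.card_image_of_injective _ hinj, Finset.card_univ, hκ]

theorem edge_inj (pr : I → E → X × X) (emb : X → Fin N) (hemb : Function.Injective emb)
    (hne : ∀ b i, emb (pr b i).1 ≠ emb (pr b i).2)
    (hpr : ∀ b b' i i', (pr b i = pr b' i' ∨ pr b i = (pr b' i').swap) → b = b' ∧ i = i')
    (b b' : I) (i i' : E)
    (h : edge (emb (pr b i).1) (emb (pr b i).2) (hne b i) =
      edge (emb (pr b' i').1) (emb (pr b' i').2) (hne b' i')) : b = b' ∧ i = i' := by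
  apply hpr
  rcases edge_eq_edge _ _ h with ⟨h1, h2⟩ | ⟨h1, h2⟩
  · exact Or.inl (Prod.ext (hemb h1) (hemb h2))
  · exact Or.inr (Prod.ext (hemb h1) (hemb h2))

theorem z0G_edge (CA : X → X → Prop) (pr : I → E → X × X) (emb : X → Fin N)
    (hemb : Function.Injective emb) (hsym : ∀ u v, CA u v → CA v u)
    (hne : ∀ b i, emb (pr b i).1 ≠ emb (pr b i).2)
    (hCA : ∀ b i, ¬ CA (pr b i).1 (pr b i).2) (b : I) (i : E) :
    ¬ z0G CA emb (edge (emb (pr b i).1) (emb (pr b i).2) (hne b i)) := by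
  rintro ⟨u, v, h, hu, hv⟩
  apply hCA b i
  rcases edge_ends _ _ (hne b i) with ⟨h1, h2⟩ | ⟨h1, h2⟩
  · rw [h1] at hu
    rw [h2] at hv
    rw [← hemb hu, ← hemb hv]
    exact h
  · rw [h1] at hu
    rw [h2] at hv
    rw [← hemb hu, ← hemb hv]
    exact hsym _ _ h

/-- Some of the vertices of `X` have prescribed places. -/
theorem exists_place {X1 X2 : Type} [Fintype X1] [Fintype X2] (f : X1 → Fin N)
    (hf : Function.Injective f) (h : Fintype.card X1 + Fintype.card X2 ≤ N) :
    ∃ g : X2 → Fin N, Function.Injective g ∧ ∀ a b, f a ≠ g b := by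
  classical
  have hcard : Fintype.card {i : Fin N // i ∉ Finset.univ.image f} = N - Fintype.card X1 := by
    rw [Fintype.card_subtype_compl]
    rw [Fintype.card_fin, Fintype.card_coe, Finset.card_image_of_injective _ hf, Finset.card_univ]
  have hle : Fintype.card X2 ≤ Fintype.card {i : Fin N // i ∉ Finset.univ.image f} := by
    rw [hcard]; omega
  obtain ⟨e⟩ := Function.Embedding.nonempty_of_card_le hle
  refine ⟨fun b => (e b).1, fun b b' hb => e.injective (Subtype.ext hb), fun a b hab => ?_⟩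
  exact (e b).2 (Finset.mem_image.mpr ⟨a, Finset.mem_univ _, hab⟩)

end P3

end Pool.Agent.Lib_MP_22d2c8_ln
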