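import Pool.Agent.Lib_MP_22d2c8_ln.Blk

/-!
# Negations above a set of input variables: fixing the other variables
-/

namespace Pool.Agent.Lib_MP_22d2c8_ln

open Finset
open Pool.Agent.Lib_MP_22d2c8_gen (Op)
open Pool.Agent.Lib_MP_22d2c8_clq

section P1
variable {V : Type} {s : ℕ}

open Classical in
/-- The gate in which the predecessors outside `R` are replaced by their values `a0`. -/
noncomputable def restrictOp {W : Type} (R : W → Prop) (a0 : W → Bool) : Op W → Op W
  | .and P => if ∃ u ∈ P, ¬ R u ∧ a0 u = false then .or ∅ else .and (P.filter (fun u => R u))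
  | .or P => if ∃ u ∈ P, ¬ R u ∧ a0 u = true then .and ∅ else .or (P.filter (fun u => R u))
  | .arb P φ => .arb (P.filter (fun u => R u))
      (fun S => φ (S ∪ P.filter (fun u => ¬ R u ∧ a0 u = true)))

theorem restrictOp_isArb {W : Type} (R : W → Prop) (a0 : W → Bool) (o : Op W) :
    (restrictOp R a0 o).isArb = o.isArb := by
  rcases o with P | P | ⟨P, φ⟩
  · simp only [restrictOp]
    split_ifs <;> rfl
  · simp only [restrictOp]
    split_ifs <;> rfl
  · rfl

theorem mem_preds_restrictOp {W : Type} (R : W → Prop) (a0 : W → Bool) (o : Op W) (u : W)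
    (h : u ∈ (restrictOp R a0 o).preds) : u ∈ o.preds ∧ R u := by
  classical
  rcases o with P | P | ⟨P, φ⟩
  · simp only [restrictOp] at h
    split_ifs at h
    · exact absurd h (Finset.notMem_empty u)
    · exact Finset.mem_filter.mp h
  · simp only [restrictOp] at h
    split_ifs at h
    · exact absurd h (Finset.notMem_empty u)
    · exact Finset.mem_filter.mp h
  · exact Finset.mem_filter.mp h

open Classical in
theorem preds_restrictOp {W : Type} (R : W → Prop) (a0 : W → Bool) (o : Op W)
    (h : o.isArb = true) : (restrictOp R a0 o).preds = o.preds.filter (fun u => R u) := by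
  rcases o with P | P | ⟨P, φ⟩
  · exact absurd h (by simp [Op.isArb])
  · exact absurd h (by simp [Op.isArb])
  · rfl

theorem eval_restrictOp {W : Type} (R : W → Prop) (a0 : W → Bool) (o : Op W) (a : W → Bool)
    (h : ∀ u ∈ o.preds, ¬ R u → a u = a0 u) : (restrictOp R a0 o).eval a = o.eval a := by
  classical
  rcases o with P | P | ⟨P, φ⟩
  · have h' : ∀ u ∈ P, ¬ R u → a u = a0 u := h
    simp only [restrictOp]
    split_ifs with hc
    · obtain ⟨u, hu, hR, h0⟩ := hc
      show decide (∃ u ∈ (∅ : Finset W), a u = true) = decide (∀ u ∈ P, a u = true)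
      rw [decide_eq_false (by simp)]
      symm
      apply decide_eq_false
      intro hall
      have := hall u hu
      rw [h' u hu hR, h0] at this
      exact absurd this (by simp)
    · show decide (∀ u ∈ P.filter (fun u => R u), a u = true) = decide (∀ u ∈ P, a u = true)
      congr 1
      apply propext
      constructor
      · intro hall u hu
        by_cases hR : R u
        · exact hall u (Finset.mem_filter.mpr ⟨hu, hR⟩)
        · rw [h' u hu hR]
          cases h0 : a0 u with
          | true => rfl
          | false => exact absurd ⟨u, hu, hR, h0⟩ hc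
      · intro hall u hu
        exact hall u (Finset.mem_filter.mp hu).1
  · have h' : ∀ u ∈ P, ¬ R u → a u = a0 u := h
    simp only [restrictOp]
    split_ifs with hc
    · obtain ⟨u, hu, hR, h0⟩ := hc
      show decide (∀ u ∈ (∅ : Finset W), a u = true) = decide (∃ u ∈ P, a u = true)
      rw [decide_eq_true (by simp)]
      symm
      apply decide_eq_true
      exact ⟨u, hu, by rw [h' u hu hR, h0]⟩
    · show decide (∃ u ∈ P.filter (fun u => R u), a u = true) = decide (∃ u ∈ P, a u = true)
      congr 1
      apply propext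
      constructor
      · rintro ⟨u, hu, ha⟩
        exact ⟨u, (Finset.mem_filter.mp hu).1, ha⟩
      · rintro ⟨u, hu, ha⟩
        refine ⟨u, Finset.mem_filter.mpr ⟨hu, ?_⟩, ha⟩
        by_contra hR
        exact hc ⟨u, hu, hR, by rw [← h' u hu hR]; exact ha⟩
  · have h' : ∀ u ∈ P, ¬ R u → a u = a0 u := h
    show φ ((P.filter (fun u => R u)).filter (fun u => a u = true) ∪
      P.filter (fun u => ¬ R u ∧ a0 u = true)) = φ (P.filter (fun u => a u = true))
    congr 1
    ext u
    rw [Finset.mem_union, Finset.mem_filter, Finset.mem_filter, Finset.mem_filter,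
      Finset.mem_filter]
    constructor
    · rintro (⟨⟨h1, _⟩, h3⟩ | ⟨h1, h2, h3⟩)
      · exact ⟨h1, h3⟩
      · exact ⟨h1, by rw [h' u h1 h2]; exact h3⟩
    · rintro ⟨h1, h2⟩
      by_cases hR : R u
      · exact Or.inl ⟨⟨h1, hR⟩, h2⟩
      · exact Or.inr ⟨h1, hR, by rw [← h' u h1 hR]; exact h2⟩

/-- The circuit in which the vertices that do not depend on `U` are replaced by their values. -/
noncomputable def restrictNet (C : Net V s) (U : Set V) (a0 : V ⊕ Fin s → Bool) : Net V s where
  op := fun g => restrictOp (Above C U) a0 (C.op g)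
  out := C.out
  acyclic := by
    obtain ⟨rank, hrank⟩ := C.acyclic
    exact ⟨rank, fun g u hu => hrank g u (mem_preds_restrictOp _ _ _ _ hu).1⟩

/-- There is a run on every input. -/
theorem exists_netRun [Fintype V] (C : Net V s) (x : V → Bool) : ∃ a, C.IsRun x a := by
  have e := Fintype.equivFin V
  obtain ⟨a, ha⟩ := Pool.Agent.Lib_MP_22d2c8_gen.exists_run (C.toCircuit e)
    (fun j => x (e.symm j))
  have h := Net.isRun_of_toCircuit C e _ a ha
  simp only [Equiv.symm_apply_apply] at h
  exact ⟨_, h⟩

/-- A run on an input which agrees with `z` outside `U` has the values `a0` at the vertices which do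
not depend on `U`. -/
theorem run_eq {C : Net V s} {U : Set V} {z x : V → Bool} {a0 a : V ⊕ Fin s → Bool}
    (h0 : C.IsRun z a0) (ha : C.IsRun x a) (hx : ∀ j, j ∉ U → x j = z j) :
    ∀ u, ¬ Above C U u → a u = a0 u := by
  obtain ⟨rank, hrank⟩ := C.acyclic
  have key : ∀ n : ℕ, ∀ u, rank u = n → ¬ Above C U u → a u = a0 u := by
    intro n
    induction n using Nat.strong_induction_on with
    | _ n ih =>
      intro u hu hA
      rcases u with j | g
      · have hj : j ∉ U := fun hj => hA (Above.var j hj)
        rw [ha.1, h0.1, hx j hj]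
      · rw [ha.2, h0.2]
        apply Pool.Agent.Lib_MP_22d2c8_gen.eval_congr
        intro v hv
        exact ih (rank v) (by rw [← hu]; exact hrank g v hv) v rfl
          (fun hv' => hA (Above.gate g v hv hv'))
  exact fun u hA => key _ u rfl hA

/-- The value of a gate of the restricted circuit which does not depend on `U`. -/
theorem eval_not_above {C : Net V s} {U : Set V} {z : V → Bool} {a0 : V ⊕ Fin s → Bool}
    (h0 : C.IsRun z a0) (a : V ⊕ Fin s → Bool) (g : Fin s) (hg : ¬ Above C U (Sum.inr g)) :
    ((restrictNet C U a0).op g).eval a = a0 (Sum.inr g) := by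
  have hp : ∀ v ∈ (C.op g).preds, ¬ Above C U v := fun v hv hv' => hg (Above.gate g v hv hv')
  have h1 : ((restrictNet C U a0).op g).eval a = ((restrictNet C U a0).op g).eval a0 := by
    apply Pool.Agent.Lib_MP_22d2c8_gen.eval_congr
    intro u hu
    obtain ⟨h2, h3⟩ := mem_preds_restrictOp _ _ _ _ hu
    exact absurd h3 (hp u h2)
  rw [h1, h0.2]
  exact eval_restrictOp _ _ _ _ fun _ _ _ => rfl

theorem run_restrict {C : Net V s} {U : Set V} {z x : V → Bool} {a0 a : V ⊕ Fin s → Bool}
    (h0 : C.IsRun z a0) (ha : C.IsRun x a) (hx : ∀ j, j ∉ U → x j = z j) :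
    (restrictNet C U a0).IsRun x a := by
  refine ⟨ha.1, fun g => ?_⟩
  rw [ha.2]
  exact (eval_restrictOp _ _ _ _ fun u _ hA => run_eq h0 ha hx u hA).symm

open Classical in
/-- The input with the values `z` outside `U`. -/
noncomputable def mix (U : Set V) (z x : V → Bool) (j : V) : Bool := if j ∈ U then x j else z j

open Classical in
/-- The assignment with the values `z` at the variables outside `U`. -/
noncomputable def mixA (U : Set V) (z : V → Bool) (a : V ⊕ Fin s → Bool) : V ⊕ Fin s → Bool
  | Sum.inl j => if j ∈ U then a (Sum.inl j) else z j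
  | Sum.inr g => a (Sum.inr g)

theorem mixA_above {C : Net V s} {U : Set V} (z : V → Bool) (a : V ⊕ Fin s → Bool)
    {u : V ⊕ Fin s} (h : Above C U u) : mixA U z a u = a u := by
  classical
  rcases u with j | g
  · have hj : j ∈ U := by
      cases h with
      | var _ hj => exact hj
    show (if j ∈ U then a (Sum.inl j) else z j) = _
    rw [if_pos hj]
  · rfl

theorem run_mix {C : Net V s} {U : Set V} {z x : V → Bool} {a0 a : V ⊕ Fin s → Bool}
    (h0 : C.IsRun z a0) (ha : (restrictNet C U a0).IsRun x a) :
    C.IsRun (mix U z x) (mixA U z a) := by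
  classical
  have hna : ∀ u, ¬ Above C U u → mixA U z a u = a0 u := by
    intro u hA
    rcases u with j | g
    · have hj : j ∉ U := fun hj => hA (Above.var j hj)
      show (if j ∈ U then a (Sum.inl j) else z j) = _
      rw [if_neg hj, h0.1]
    · show a (Sum.inr g) = _
      rw [ha.2]
      exact eval_not_above h0 a g hA
  refine ⟨fun j => ?_, fun g => ?_⟩
  · show (if j ∈ U then a (Sum.inl j) else z j) = if j ∈ U then x j else z j
    rw [ha.1]
  · show a (Sum.inr g) = _
    rw [ha.2]
    have h1 : ((restrictNet C U a0).op g).eval a =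
        ((restrictNet C U a0).op g).eval (mixA U z a) := by
      apply Pool.Agent.Lib_MP_22d2c8_gen.eval_congr
      intro u hu
      exact (mixA_above z a (mem_preds_restrictOp _ _ _ _ hu).2).symm
    rw [h1]
    exact eval_restrictOp _ _ _ _ fun u _ hA => hna u hA

theorem isEntry_restrict {C : Net V s} {U : Set V} {a0 : V ⊕ Fin s → Bool} (u : V ⊕ Fin s) :
    (restrictNet C U a0).IsEntry u ↔ C.IsEntry u ∧ Above C U u := by
  classical
  constructor
  · rintro ⟨g, hg, hu⟩
    have hg' : (C.op g).isArb = true := by
      rw [← restrictOp_isArb (Above C U) a0]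
      exact hg
    obtain ⟨h1, h2⟩ := mem_preds_restrictOp _ _ _ _ hu
    exact ⟨⟨g, hg', h1⟩, h2⟩
  · rintro ⟨⟨g, hg, hu⟩, hA⟩
    refine ⟨g, ?_, ?_⟩
    · show (restrictOp (Above C U) a0 (C.op g)).isArb = true
      rw [restrictOp_isArb]
      exact hg
    · show u ∈ (restrictOp (Above C U) a0 (C.op g)).preds
      rw [preds_restrictOp _ _ _ hg, Finset.mem_filter]
      exact ⟨hu, hA⟩

theorem changes_restrict {C : Net V s} {U : Set V} {z : V → Bool} {a0 : V ⊕ Fin s → Bool}
    (h0 : C.IsRun z a0) (T : ℕ) (h : ChangesOnLE C U z T) :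
    (restrictNet C U a0).EntryChangesLE T := by
  classical
  intro m x a hx ha
  have h1 := h m (fun i => mix U z (x i)) (fun i => mixA U z (a i)) ?_ ?_ ?_
  · refine le_trans (Finset.card_le_card ?_) h1
    intro i hi
    simp only [Finset.mem_filter] at hi ⊢
    obtain ⟨h2, u, hu, hne⟩ := hi
    rw [isEntry_restrict] at hu
    refine ⟨h2, u, hu.1, ?_⟩
    rw [mixA_above z _ hu.2, mixA_above z _ hu.2]
    exact hne
  · intro i hi j hj
    have hj' : (if j ∈ U then x i j else z j) = true := hj
    show (if j ∈ U then x (i + 1) j else z j) = true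
    by_cases hU : j ∈ U
    · rw [if_pos hU] at hj' ⊢
      exact hx i hi j hj'
    · rw [if_neg hU] at hj' ⊢
      exact hj'
  · intro i _ j hj
    show (if j ∈ U then x i j else z j) = z j
    rw [if_neg hj]
  · intro i hi
    exact run_mix h0 (ha i hi)

/-- What remains of the circuit if the variables outside `U` get the values `z`: a circuit `R`
over the same variables which agrees with `C` on the inputs that agree with `z` outside `U`, and
whose entry vertices are the entry vertices of `C` above `U`. -/
theorem exists_restrict [Fintype V] (C : Net V s) (U : Set V) (z : V → Bool) :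
    ∃ R : Net V s,
      (∀ x : V → Bool, (∀ j, j ∉ U → x j = z j) → (R.Accepts x ↔ C.Accepts x)) ∧
      (∀ T, ChangesOnLE C U z T → R.EntryChangesLE T) := by
  classical
  obtain ⟨a0, h0⟩ := exists_netRun C z
  refine ⟨restrictNet C U a0, fun x hx => ⟨?_, ?_⟩, fun T hT => changes_restrict h0 T hT⟩
  · rintro ⟨a, ha, hout⟩
    have hmix : mix U z x = x := by
      funext j
      show (if j ∈ U then x j else z j) = x j
      by_cases hj : j ∈ U
      · rw [if_pos hj]
      · rw [if_neg hj, hx j hj]
    have hmixA : mixA U z a = a := by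
      funext u
      rcases u with j | g
      · show (if j ∈ U then a (Sum.inl j) else z j) = a (Sum.inl j)
        by_cases hj : j ∈ U
        · rw [if_pos hj]
        · rw [if_neg hj, ha.1, hx j hj]
      · rfl
    have h1 := run_mix h0 ha
    rw [hmix, hmixA] at h1
    exact ⟨a, h1, hout⟩
  · rintro ⟨a, ha, hout⟩
    exact ⟨a, run_restrict h0 ha hx, hout⟩

/-- From the restricted circuit to the circuit. -/
theorem changesOn_of_restrict [Fintype V] {C : Net V s} {U : Set V} {z : V → Bool}
    {a0 : V ⊕ Fin s → Bool} (h0 : C.IsRun z a0) (T : ℕ)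
    (h : (restrictNet C U a0).EntryChangesLE T) : ChangesOnLE C U z T := by
  classical
  intro m x a hx hz ha
  have h1 := h m x a hx (fun i hi => run_restrict h0 (ha i hi) (hz i hi))
  refine le_trans (Finset.card_le_card ?_) h1
  intro i hi
  simp only [Finset.mem_filter] at hi ⊢
  obtain ⟨h2, u, hu, hne⟩ := hi
  refine ⟨h2, u, (isEntry_restrict u).mpr ⟨hu, ?_⟩, hne⟩
  by_contra hA
  have h3 : i < m := Finset.mem_range.mp h2
  apply hne
  rw [run_eq h0 (ha i h3.le) (hz i h3.le) u hA, run_eq h0 (ha (i + 1) h3) (hz (i + 1) h3) u hA]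

theorem changesOn_wires [Fintype V] (C : Net V s) (U : Set V) (z : V → Bool) :
    ChangesOnLE C U z (2 ^ wiresOn C U - 1) := by
  classical
  obtain ⟨a0, h0⟩ := exists_netRun C z
  have h1 : (restrictNet C U a0).entryWires = wiresOn C U := by
    unfold Net.entryWires wiresOn
    have h2 : ∀ g, ((restrictNet C U a0).op g).isArb = (C.op g).isArb := fun g =>
      restrictOp_isArb _ _ _
    simp only [h2]
    refine Finset.sum_congr rfl fun g hg => ?_
    rw [Finset.mem_filter] at hg
    show (restrictOp (Above C U) a0 (C.op g)).preds.card = _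
    rw [preds_restrictOp _ _ _ hg.2]
  rw [← h1]
  exact changesOn_of_restrict h0 _ (Net.changes_wires _)

theorem changesOn_level [Fintype V] (C : Net V s) (U : Set V) (z : V → Bool) (M : ℕ)
    (lev : V ⊕ Fin s → ℕ) (h : C.IsLevel M lev) :
    ChangesOnLE C U z (prodOn C U M lev - 1) := by
  classical
  obtain ⟨a0, h0⟩ := exists_netRun C z
  have h1 : (restrictNet C U a0).entryProd M lev = prodOn C U M lev := by
    unfold Net.entryProd prodOn
    refine Finset.prod_congr rfl fun l _ => ?_
    congr 2
    ext u
    rw [Finset.mem_filter, Finset.mem_filter, isEntry_restrict, and_assoc]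
  have h2 : (restrictNet C U a0).IsLevel M lev := by
    refine ⟨fun u hu => h.1 u ((isEntry_restrict u).mp hu).1, fun g u hu => ?_,
      fun g hg u hu => ?_⟩
    · exact h.2.1 g u (mem_preds_restrictOp _ _ _ _ hu).1
    · have hg' : (C.op g).isArb = true := by
        rw [← restrictOp_isArb (Above C U) a0]
        exact hg
      exact h.2.2 g hg' u (mem_preds_restrictOp _ _ _ _ hu).1
  rw [← h1]
  exact changesOn_of_restrict h0 _ (Net.changes_of_level _ M lev h2)

end P1

end Pool.Agent.Lib_MP_22d2c8_ln
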