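import Pool.Agent.Lib_MP_22d2c8_ln.Blk

/-!
# Negations above a set of input variables: sets with many edges
-/

namespace Pool.Agent.Lib_MP_22d2c8_ln

open Finset
open Pool.Agent.Lib_MP_22d2c8_clq

/-- One of the classes has its share of the weight. -/
private theorem pigeon {α β : Type} [DecidableEq β] (s : Finset α) (t : Finset β) (f : α → β)
    (w : α → ℕ) (hf : ∀ a ∈ s, f a ∈ t) (ht : t.Nonempty) :
    ∃ y ∈ t, ∑ a ∈ s, w a ≤ t.card * ∑ a ∈ s.filter (fun a => f a = y), w a := by
  have h1 : ∑ _y ∈ t, ∑ a ∈ s, w a = ∑ y ∈ t, t.card * ∑ a ∈ s.filter (fun a => f a = y), w a := by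
    rw [sum_const, smul_eq_mul, ← mul_sum, sum_fiberwise_of_maps_to hf]
  exact exists_le_of_sum_le ht h1.le

/-- Half of the colourings separate two given vertices. -/
private theorem half_cut {N : ℕ} (i j : Fin N) (hij : i ≠ j) :
    2 * (univ.filter (fun f : Fin N → Bool => f i ≠ f j)).card = 2 ^ N := by
  classical
  have h1 : (univ.filter (fun f : Fin N → Bool => f i ≠ f j)).card =
      (univ.filter (fun f : Fin N → Bool => ¬ f i ≠ f j)).card := by
    refine card_nbij' (fun f => Function.update f i (!f i)) (fun f => Function.update f i (!f i))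
      ?_ ?_ ?_ ?_
    · intro f hf
      simp only [coe_filter, mem_univ, true_and, Set.mem_ofPred_eq, not_not] at hf ⊢
      rw [Function.update_self, Function.update_of_ne hij.symm]
      cases h : f i <;> cases h' : f j <;> simp_all
    · intro f hf
      simp only [coe_filter, mem_univ, true_and, Set.mem_ofPred_eq, not_not] at hf ⊢
      rw [Function.update_self, Function.update_of_ne hij.symm]
      cases h : f i <;> cases h' : f j <;> simp_all
    · intro f _
      simp
    · intro f _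
      simp
  have h2 : (univ.filter (fun f : Fin N → Bool => f i ≠ f j)).card +
      (univ.filter (fun f : Fin N → Bool => ¬ f i ≠ f j)).card = 2 ^ N := by
    rw [card_filter_add_card_filter_not]
    simp
  omega

/-- Some colouring cuts half of the edges. -/
private theorem exists_cut {N : ℕ} (U : Finset (EdgeVar N)) :
    ∃ f : Fin N → Bool, U.card ≤ 2 * (U.filter (fun e => f e.1.1 ≠ f e.1.2)).card := by
  classical
  have h2 : ∑ f : Fin N → Bool, (U.filter (fun e => f e.1.1 ≠ f e.1.2)).card =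
      ∑ e ∈ U, (univ.filter (fun f : Fin N → Bool => f e.1.1 ≠ f e.1.2)).card := by
    simp only [card_filter]
    exact sum_comm
  have h3 : ∑ _f : Fin N → Bool, U.card =
      ∑ f : Fin N → Bool, 2 * (U.filter (fun e => f e.1.1 ≠ f e.1.2)).card := by
    have h4 : ∑ e ∈ U, 2 * (univ.filter (fun f : Fin N → Bool => f e.1.1 ≠ f e.1.2)).card =
        ∑ _e ∈ U, 2 ^ N := sum_congr rfl fun e _ => half_cut e.1.1 e.1.2 (ne_of_lt e.2)
    rw [← mul_sum, h2, mul_sum, h4]
    simp [mul_comm]
  obtain ⟨f, -, hf⟩ := exists_le_of_sum_le univ_nonempty h3.le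
  exact ⟨f, hf⟩

/-- A part of the vertices is small. -/
private theorem part_card {N M : ℕ} (hM : 0 < M) (s : ℕ) :
    (univ.filter (fun i : Fin N => (i : ℕ) / M = s)).card ≤ M := by
  have h : (univ.filter (fun i : Fin N => (i : ℕ) / M = s)).card ≤ (range M).card := by
    refine card_le_card_of_injOn (fun i => (i : ℕ) % M) ?_ ?_
    · intro i _
      exact mem_coe.2 (mem_range.2 (Nat.mod_lt _ hM))
    · intro i hi j hj hij
      have hi' := (mem_filter.1 (mem_coe.1 hi)).2
      have hj' := (mem_filter.1 (mem_coe.1 hj)).2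
      have hij' : (i : ℕ) % M = (j : ℕ) % M := hij
      have e1 := Nat.div_add_mod (i : ℕ) M
      have e2 := Nat.div_add_mod (j : ℕ) M
      apply Fin.ext
      rw [← e1, ← e2, hi', hj', hij']
  rwa [card_range] at h

/-- Membership in the set of the neighbours. -/
private theorem mem_nbr' {N : ℕ} (U : Set (EdgeVar N)) (L : Finset (Fin N)) (a l : Fin N) :
    l ∈ nbr U L a ↔
      l ∈ L ∧ ∃ e ∈ U, (e.1.1 = a ∧ e.1.2 = l) ∨ (e.1.1 = l ∧ e.1.2 = a) := by
  classical
  unfold nbr
  rw [mem_filter]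

/-- Membership in the touched vertices. -/
private theorem le_touched {N : ℕ} (U : Set (EdgeVar N)) (S : Finset (Fin N))
    (h : ∀ a ∈ S, ∃ e ∈ U, e.1.1 = a ∨ e.1.2 = a) : S.card ≤ touched U := by
  classical
  unfold touched
  apply card_le_card
  intro a ha
  rw [mem_filter]
  exact ⟨mem_univ _, h a ha⟩

/-- The edges between `A` and `L`. -/
private def EAL {N : ℕ} (U : Finset (EdgeVar N)) (A L : Finset (Fin N)) : Finset (EdgeVar N) :=
  U.filter (fun e => (e.1.1 ∈ A ∧ e.1.2 ∈ L) ∨ (e.1.1 ∈ L ∧ e.1.2 ∈ A))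

/-- Two small disjoint sets with many edges between them. -/
private theorem exists_AL {N : ℕ} (hN : 100 ≤ N) (U : Finset (EdgeVar N)) :
    ∃ A L : Finset (Fin N), Disjoint A L ∧ 16 * A.card ≤ 3 * N ∧ 16 * L.card ≤ 3 * N ∧
      U.card ≤ 72 * (EAL U A L).card := by
  classical
  obtain ⟨f, hf⟩ := exists_cut U
  obtain ⟨M, hMdef⟩ : ∃ M, M = N / 6 + 1 := ⟨_, rfl⟩
  have hM : 0 < M := by omega
  have hM6 : N < 6 * M := by omega
  have hM16 : 16 * M ≤ 3 * N := by omega
  have hpart : ∀ i : Fin N, (i : ℕ) / M < 6 := by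
    intro i
    rw [Nat.div_lt_iff_lt_mul hM]
    have := i.2
    omega
  set C := U.filter (fun e => f e.1.1 ≠ f e.1.2) with hC
  -- the end with the colour true and the other end
  let tr : EdgeVar N → Fin N := fun e => if f e.1.1 = true then e.1.1 else e.1.2
  let fa : EdgeVar N → Fin N := fun e => if f e.1.1 = true then e.1.2 else e.1.1
  obtain ⟨y, -, hy⟩ := pigeon C (range 6 ×ˢ range 6)
    (fun e => (((tr e : Fin N) : ℕ) / M, ((fa e : Fin N) : ℕ) / M)) (fun _ => 1)
    (fun e _ => mem_product.2 ⟨mem_range.2 (hpart _), mem_range.2 (hpart _)⟩)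
    ⟨(0, 0), by simp⟩
  rw [sum_const, smul_eq_mul, mul_one, sum_const, smul_eq_mul, mul_one, card_product,
    card_range] at hy
  refine ⟨univ.filter (fun i => f i = true ∧ (i : ℕ) / M = y.1),
    univ.filter (fun i => f i = false ∧ (i : ℕ) / M = y.2), ?_, ?_, ?_, ?_⟩
  · rw [disjoint_left]
    intro i hi hi'
    have h1 := (mem_filter.1 hi).2.1
    have h2 := (mem_filter.1 hi').2.1
    rw [h1] at h2
    exact absurd h2 (by decide)
  · have h1 : (univ.filter (fun i : Fin N => f i = true ∧ (i : ℕ) / M = y.1)).card ≤ M := by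
      refine (card_le_card ?_).trans (part_card (N := N) hM y.1)
      intro i hi
      rw [mem_filter] at hi ⊢
      exact ⟨mem_univ _, hi.2.2⟩
    omega
  · have h1 : (univ.filter (fun i : Fin N => f i = false ∧ (i : ℕ) / M = y.2)).card ≤ M := by
      refine (card_le_card ?_).trans (part_card (N := N) hM y.2)
      intro i hi
      rw [mem_filter] at hi ⊢
      exact ⟨mem_univ _, hi.2.2⟩
    omega
  · have h1 : C.filter (fun e => (((tr e : Fin N) : ℕ) / M, ((fa e : Fin N) : ℕ) / M) = y) ⊆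
        EAL U (univ.filter (fun i => f i = true ∧ (i : ℕ) / M = y.1))
          (univ.filter (fun i => f i = false ∧ (i : ℕ) / M = y.2)) := by
      intro e he
      rw [mem_filter, hC, mem_filter] at he
      obtain ⟨⟨heU, hne⟩, hey⟩ := he
      have hy1 : ((tr e : Fin N) : ℕ) / M = y.1 := congrArg Prod.fst hey
      have hy2 : ((fa e : Fin N) : ℕ) / M = y.2 := congrArg Prod.snd hey
      unfold EAL
      rw [mem_filter]
      refine ⟨heU, ?_⟩
      by_cases h : f e.1.1 = true
      · have h' : f e.1.2 = false := by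
          rw [h] at hne
          cases h'' : f e.1.2
          · rfl
          · exact absurd h''.symm hne
        have t1 : tr e = e.1.1 := if_pos h
        have t2 : fa e = e.1.2 := if_pos h
        rw [t1] at hy1
        rw [t2] at hy2
        exact Or.inl ⟨mem_filter.2 ⟨mem_univ _, h, hy1⟩, mem_filter.2 ⟨mem_univ _, h', hy2⟩⟩
      · have h0 : f e.1.1 = false := by
          cases h'' : f e.1.1
          · rfl
          · exact absurd h'' h
        have h' : f e.1.2 = true := by
          rw [h0] at hne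
          cases h'' : f e.1.2
          · exact absurd h''.symm hne
          · rfl
        have t1 : tr e = e.1.2 := if_neg h
        have t2 : fa e = e.1.1 := if_neg h
        rw [t1] at hy1
        rw [t2] at hy2
        exact Or.inr ⟨mem_filter.2 ⟨mem_univ _, h0, hy2⟩, mem_filter.2 ⟨mem_univ _, h', hy1⟩⟩
    have h2 := card_le_card h1
    omega

/-- The number of edges is at most the sum of the degrees. -/
private theorem edges_le {N : ℕ} (U : Finset (EdgeVar N)) (A L : Finset (Fin N))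
    (hAL : Disjoint A L) :
    (EAL U A L).card ≤ ∑ a ∈ A, (nbr (U : Set (EdgeVar N)) L a).card := by
  classical
  have h1 : ∑ a ∈ A, (nbr (U : Set (EdgeVar N)) L a).card =
      (A.sigma (fun a => nbr (U : Set (EdgeVar N)) L a)).card := (card_sigma _ _).symm
  rw [h1]
  refine card_le_card_of_injOn
    (fun e => if e.1.1 ∈ A then (⟨e.1.1, e.1.2⟩ : Σ _ : Fin N, Fin N) else ⟨e.1.2, e.1.1⟩) ?_ ?_
  · intro e he
    unfold EAL at he
    rw [coe_filter] at he
    obtain ⟨heU, hAe⟩ := he
    rw [mem_coe]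
    by_cases h : e.1.1 ∈ A
    · have h2 : e.1.2 ∈ L := by
        rcases hAe with h3 | h3
        · exact h3.2
        · exact absurd h3.1 (disjoint_left.1 hAL h)
      show (if e.1.1 ∈ A then (⟨e.1.1, e.1.2⟩ : Σ _ : Fin N, Fin N) else ⟨e.1.2, e.1.1⟩) ∈ _
      rw [if_pos h, mem_sigma]
      refine ⟨h, ?_⟩
      show e.1.2 ∈ nbr (U : Set (EdgeVar N)) L e.1.1
      rw [mem_nbr']
      exact ⟨h2, e, heU, Or.inl ⟨rfl, rfl⟩⟩
    · have h2 : e.1.1 ∈ L ∧ e.1.2 ∈ A := by
        rcases hAe with h3 | h3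
        · exact absurd h3.1 h
        · exact h3
      show (if e.1.1 ∈ A then (⟨e.1.1, e.1.2⟩ : Σ _ : Fin N, Fin N) else ⟨e.1.2, e.1.1⟩) ∈ _
      rw [if_neg h, mem_sigma]
      refine ⟨h2.2, ?_⟩
      show e.1.1 ∈ nbr (U : Set (EdgeVar N)) L e.1.2
      rw [mem_nbr']
      exact ⟨h2.1, e, heU, Or.inr ⟨rfl, rfl⟩⟩
  · intro e he e' he' hee
    have hee' : (if e.1.1 ∈ A then (⟨e.1.1, e.1.2⟩ : Σ _ : Fin N, Fin N) else ⟨e.1.2, e.1.1⟩) =
      (if e'.1.1 ∈ A then (⟨e'.1.1, e'.1.2⟩ : Σ _ : Fin N, Fin N) else ⟨e'.1.2, e'.1.1⟩) := hee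
    have hlt := e.2
    have hlt' := e'.2
    by_cases h : e.1.1 ∈ A
    · by_cases h' : e'.1.1 ∈ A
      · rw [if_pos h, if_pos h'] at hee'
        have e1 : e.1.1 = e'.1.1 := congrArg Sigma.fst hee'
        have e2 : e.1.2 = e'.1.2 := congrArg (fun s : Σ _ : Fin N, Fin N => s.2) hee'
        exact Subtype.ext (Prod.ext e1 e2)
      · rw [if_pos h, if_neg h'] at hee'
        have e1 : e.1.1 = e'.1.2 := congrArg Sigma.fst hee'
        have e2 : e.1.2 = e'.1.1 := congrArg (fun s : Σ _ : Fin N, Fin N => s.2) hee'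
        rw [e1, e2] at hlt
        exact absurd hlt (not_lt.2 hlt'.le)
    · by_cases h' : e'.1.1 ∈ A
      · rw [if_neg h, if_pos h'] at hee'
        have e1 : e.1.2 = e'.1.1 := congrArg Sigma.fst hee'
        have e2 : e.1.1 = e'.1.2 := congrArg (fun s : Σ _ : Fin N, Fin N => s.2) hee'
        rw [e1, e2] at hlt
        exact absurd hlt (not_lt.2 hlt'.le)
      · rw [if_neg h, if_neg h'] at hee'
        have e1 : e.1.2 = e'.1.2 := congrArg Sigma.fst hee'
        have e2 : e.1.1 = e'.1.1 := congrArg (fun s : Σ _ : Fin N, Fin N => s.2) hee'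
        exact Subtype.ext (Prod.ext e2 e1)

theorem room_edges {N B F v : ℕ} (hB : 1 ≤ B) (hv : 4 ≤ v) (hvF : v ≤ F)
    (hNv : N ^ 2 ≤ 2 ^ v) (hN : 100 ≤ N) (U : Finset (EdgeVar N))
    (h : 2 ^ 13 * v * B * F ^ 2 ≤ U.card) :
    8 * B * F ≤ touched (U : Set (EdgeVar N)) ∨
    ∃ (A L : Finset (Fin N)) (D : ℕ), Disjoint A L ∧ 16 * A.card ≤ 3 * N ∧
      16 * L.card ≤ 3 * N ∧ (∀ a ∈ A, D ≤ (nbr (U : Set (EdgeVar N)) L a).card) ∧
      2 * v * F ≤ D ∧ 2 * v * B * F ≤ A.card * D := by
  classical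
  obtain ⟨A, L, hAL, hA, hL, hUE⟩ := exists_AL hN U
  have hE := edges_le U A L hAL
  obtain ⟨e0, he0⟩ : ∃ e0, e0 = (EAL U A L).card := ⟨_, rfl⟩
  rw [← he0] at hE hUE
  obtain ⟨d, hd⟩ : ∃ d : Fin N → ℕ, d = fun a => (nbr (U : Set (EdgeVar N)) L a).card := ⟨_, rfl⟩
  have hE' : e0 ≤ ∑ a ∈ A, d a := by
    rw [hd]
    exact hE
  have hF : 1 ≤ F := by omega
  have hsplit := sum_filter_add_sum_filter_not A (fun a => d a < 4 * v * F) d
  rcases le_total e0 (2 * ∑ a ∈ A.filter (fun a => d a < 4 * v * F), d a) with hlow | hlow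
  · left
    have h1 : ∑ a ∈ A.filter (fun a => d a < 4 * v * F), d a ≤
        touched (U : Set (EdgeVar N)) * (4 * v * F) := by
      have h2 : ∑ a ∈ A.filter (fun a => d a < 4 * v * F), d a =
          ∑ a ∈ (A.filter (fun a => d a < 4 * v * F)).filter (fun a => d a ≠ 0), d a := by
        rw [sum_filter_ne_zero]
      rw [h2]
      have h3 : ((A.filter (fun a => d a < 4 * v * F)).filter (fun a => d a ≠ 0)).card ≤
          touched (U : Set (EdgeVar N)) := by
        apply le_touched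
        intro a ha
        rw [mem_filter, mem_filter] at ha
        have h4 : d a ≠ 0 := ha.2
        rw [hd] at h4
        obtain ⟨l, hl⟩ := card_pos.1 (Nat.pos_of_ne_zero h4)
        rw [mem_nbr'] at hl
        obtain ⟨-, e, heU, h5 | h5⟩ := hl
        · exact ⟨e, heU, Or.inl h5.1⟩
        · exact ⟨e, heU, Or.inr h5.2⟩
      calc ∑ a ∈ (A.filter (fun a => d a < 4 * v * F)).filter (fun a => d a ≠ 0), d a
          ≤ ∑ a ∈ (A.filter (fun a => d a < 4 * v * F)).filter (fun a => d a ≠ 0),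
            4 * v * F := by
            apply sum_le_sum
            intro a ha
            rw [mem_filter, mem_filter] at ha
            exact ha.1.2.le
        _ = ((A.filter (fun a => d a < 4 * v * F)).filter (fun a => d a ≠ 0)).card *
            (4 * v * F) := by rw [sum_const, smul_eq_mul]
        _ ≤ _ := Nat.mul_le_mul_right _ h3
    obtain ⟨t, ht⟩ : ∃ t, t = touched (U : Set (EdgeVar N)) := ⟨_, rfl⟩
    rw [← ht] at h1 ⊢
    -- 576 v F t ≥ 2 ^ 13 v B F ^ 2
    have h5 : 2 ^ 13 * v * B * F ^ 2 ≤ 72 * (2 * (t * (4 * v * F))) := by omega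
    have hvF0 : 0 < v * F := Nat.mul_pos (by omega) (by omega)
    have h6 : v * F * (2 ^ 13 * (B * F)) ≤ v * F * (576 * t) := by
      calc v * F * (2 ^ 13 * (B * F)) = 2 ^ 13 * v * B * F ^ 2 := by ring
        _ ≤ 72 * (2 * (t * (4 * v * F))) := h5
        _ = v * F * (576 * t) := by ring
    have h7 : 2 ^ 13 * (B * F) ≤ 576 * t := Nat.le_of_mul_le_mul_left h6 hvF0
    have h8 : 8 * B * F = 8 * (B * F) := by ring
    omega
  · right
    set H := A.filter (fun a => ¬ d a < 4 * v * F) with hH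
    have hHsum : e0 ≤ 2 * ∑ a ∈ H, d a := by omega
    have hdN : ∀ a, d a ≤ N := by
      intro a
      rw [hd]
      have h1 : (nbr (U : Set (EdgeVar N)) L a).card ≤ (univ : Finset (Fin N)).card :=
        card_le_card (subset_univ _)
      rwa [card_univ, Fintype.card_fin] at h1
    have hlog : ∀ a ∈ H, Nat.log 2 (d a) ∈ range v := by
      intro a _
      rw [mem_range]
      have h1 : Nat.log 2 (d a) ≤ Nat.log 2 N := Nat.log_mono_right (hdN a)
      have h2 : 2 ^ Nat.log 2 N ≤ N := Nat.pow_log_le_self 2 (by omega)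
      have h3 : 2 ^ (2 * Nat.log 2 N) ≤ 2 ^ v := by
        calc 2 ^ (2 * Nat.log 2 N) = (2 ^ Nat.log 2 N) ^ 2 := by rw [← pow_mul, mul_comm]
          _ ≤ N ^ 2 := Nat.pow_le_pow_left h2 2
          _ ≤ 2 ^ v := hNv
      have h4 : 2 * Nat.log 2 N ≤ v := (Nat.pow_le_pow_iff_right (by norm_num)).1 h3
      omega
    obtain ⟨i, -, hi⟩ := pigeon H (range v) (fun a => Nat.log 2 (d a)) d hlog
      ⟨0, mem_range.2 (by omega)⟩
    rw [card_range] at hi
    set A' := H.filter (fun a => Nat.log 2 (d a) = i) with hA'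
    have hmem : ∀ a ∈ A', a ∈ A ∧ 4 * v * F ≤ d a ∧ 2 ^ i ≤ d a ∧ d a ≤ 2 * 2 ^ i := by
      intro a ha
      rw [hA', mem_filter, hH, mem_filter, not_lt] at ha
      obtain ⟨⟨h1, h2⟩, h3⟩ := ha
      have h4 : d a ≠ 0 := by
        have : 0 < 4 * v * F := by positivity
        omega
      refine ⟨h1, h2, ?_, ?_⟩
      · rw [← h3]
        exact Nat.pow_log_le_self 2 h4
      · have h5 := Nat.lt_pow_succ_log_self (b := 2) (by norm_num) (d a)
        rw [h3, Nat.succ_eq_add_one, pow_succ] at h5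
        omega
    have hsum : ∑ a ∈ A', d a ≤ A'.card * (2 * 2 ^ i) := by
      calc ∑ a ∈ A', d a ≤ ∑ a ∈ A', 2 * 2 ^ i := sum_le_sum fun a ha => (hmem a ha).2.2.2
        _ = _ := by rw [sum_const, smul_eq_mul]
    obtain ⟨x, hx⟩ : ∃ x, x = A'.card * 2 ^ i := ⟨_, rfl⟩
    have h1 : ∑ a ∈ A', d a ≤ 2 * x := by
      rw [hx]
      calc _ ≤ _ := hsum
        _ = _ := by ring
    have h2 : v * ∑ a ∈ A', d a ≤ v * (2 * x) := Nat.mul_le_mul_left _ h1
    have h3 : 2 ^ 13 * v * B * F ^ 2 ≤ 72 * (2 * (v * (2 * x))) := by omega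
    have h4 : v * (2 ^ 13 * (B * F ^ 2)) ≤ v * (288 * x) := by
      calc v * (2 ^ 13 * (B * F ^ 2)) = 2 ^ 13 * v * B * F ^ 2 := by ring
        _ ≤ 72 * (2 * (v * (2 * x))) := h3
        _ = v * (288 * x) := by ring
    have h5 : 2 ^ 13 * (B * F ^ 2) ≤ 288 * x := Nat.le_of_mul_le_mul_left h4 (by omega)
    have h6 : v * (B * F) ≤ F * (B * F) := Nat.mul_le_mul_right _ hvF
    have h7 : F * (B * F) = B * F ^ 2 := by ring
    have h8 : 2 * v * B * F = 2 * (v * (B * F)) := by ring
    have h9 : 0 < B * F ^ 2 := by positivity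
    refine ⟨A', L, 2 ^ i, ?_, ?_, hL, ?_, ?_, ?_⟩
    · exact disjoint_of_subset_left (fun a ha => (hmem a ha).1) hAL
    · have h10 : A'.card ≤ A.card := card_le_card (fun a ha => (hmem a ha).1)
      omega
    · intro a ha
      have h10 := (hmem a ha).2.2.1
      rw [hd] at h10
      exact h10
    · have hne : A'.Nonempty := by
        rw [← card_pos]
        by_contra hc
        have h10 : A'.card = 0 := by omega
        rw [h10, zero_mul] at hx
        omega
      obtain ⟨a, ha⟩ := hne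
      obtain ⟨-, h11, -, h12⟩ := hmem a ha
      have h13 : 4 * v * F = 2 * (2 * v * F) := by ring
      omega
    · rw [← hx]
      omega

end Pool.Agent.Lib_MP_22d2c8_ln
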