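import Pool.Agent.Lib_MP_22d2c8_ln.AvgOn
import Pool.Agent.Lib_MP_22d2c8_ln.Restrict
import Pool.Agent.Lib_MP_22d2c8_ln.BlkA
import Pool.Agent.Lib_MP_22d2c8_ln.BlkT
import Pool.Agent.Lib_MP_22d2c8_ln.BlkD
import Pool.Agent.Lib_MP_22d2c8_ln.RoomD

/-!
# Negations above a set of input variables: the lower bound
-/

namespace Pool.Agent.Lib_MP_22d2c8_ln

open Finset
open Pool.Agent.Lib_MP_22d2c8_clq
open Pool.Agent.Lib_MP_22d2c8_rsf (prob)

theorem card_edgeVar_le (N : ℕ) : Fintype.card (EdgeVar N) ≤ N ^ 2 := by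
  refine (Fintype.card_subtype_le _).trans ?_
  rw [Fintype.card_prod, Fintype.card_fin, pow_two]

theorem rich_bound {N B F v κ : ℕ} {U : Finset (EdgeVar N)} (hv : 1 ≤ v) (hF : 1 ≤ F)
    (h : Rich U B F v κ) : 4 * B ≤ N ^ 2 := by
  have hBF : B * 1 ≤ B * F := Nat.mul_le_mul_left _ hF
  rcases h with ⟨A, L, -, -, h1, -⟩ | ⟨-, h1 | h1⟩
  · have hA : A.card ≤ N := by simpa using Finset.card_le_univ A
    have hL : L.card ≤ N := by simpa using Finset.card_le_univ L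
    have h2 : A.card * L.card ≤ N ^ 2 := by
      rw [pow_two]
      exact Nat.mul_le_mul hA hL
    have h3 : 16 * B * F = 16 * (B * F) := by ring
    omega
  · have h3 : touched (U : Set (EdgeVar N)) ≤ N := by
      have := Finset.card_le_univ (Finset.univ.filter
        (fun i : Fin N => ∃ e ∈ (U : Set (EdgeVar N)), e.1.1 = i ∨ e.1.2 = i))
      simpa [touched] using this
    have h4 : N * 1 ≤ N ^ 2 := by
      rw [pow_two]
      rcases Nat.eq_zero_or_pos N with h0 | h0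
      · subst h0
        simp
      · exact Nat.mul_le_mul_left _ h0
    have h5 : 8 * B * F = 8 * (B * F) := by ring
    omega
  · have h3 : U.card ≤ N ^ 2 := (Finset.card_le_univ U).trans (card_edgeVar_le N)
    have h4 : (2 ^ 13 * B) * 1 ≤ (2 ^ 13 * B) * (v * F ^ 2) := Nat.mul_le_mul_left _
      (Nat.mul_pos hv (by positivity))
    have h5 : 2 ^ 13 * v * B * F ^ 2 = (2 ^ 13 * B) * (v * F ^ 2) := by ring
    omega

/-- The set of all the edge variables is rich. -/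
theorem rich_univ {N B F v κ : ℕ} (h : 64 * B * F < N ^ 2) (hF : 4 * F < N) :
    Rich (Finset.univ : Finset (EdgeVar N)) B F v κ := by
  classical
  refine Or.inl ⟨Finset.univ.filter (fun i : Fin N => (i : ℕ) < N / 2),
    Finset.univ.filter (fun i : Fin N => ¬ (i : ℕ) < N / 2),
    Finset.disjoint_filter_filter_not _ _ _, fun e _ => Finset.mem_univ e, ?_, ?_⟩
  all_goals
    have hA : (Finset.univ.filter (fun i : Fin N => (i : ℕ) < N / 2)).card = N / 2 := by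
      rw [Fin.card_filter_val_lt]
      omega
    have hL : (Finset.univ.filter (fun i : Fin N => (i : ℕ) < N / 2)).card +
        (Finset.univ.filter (fun i : Fin N => ¬ (i : ℕ) < N / 2)).card = N := by
      rw [Finset.card_filter_add_card_filter_not]
      simp
  · have hL' : (Finset.univ.filter (fun i : Fin N => ¬ (i : ℕ) < N / 2)).card = N - N / 2 := by
      omega
    rw [hA, hL']
    obtain ⟨k, hk | hk⟩ : ∃ k, N = 2 * k ∨ N = 2 * k + 1 := ⟨N / 2, by omega⟩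
    · subst hk
      have e1 : 2 * k / 2 = k := by omega
      have e2 : 2 * k - k = k := by omega
      rw [e1, e2]
      have e3 : (2 * k) ^ 2 = 4 * (k * k) := by ring
      have e4 : 64 * B * F = 4 * (16 * B * F) := by ring
      omega
    · subst hk
      have e1 : (2 * k + 1) / 2 = k := by omega
      have e2 : 2 * k + 1 - k = k + 1 := by omega
      rw [e1, e2]
      have e3 : (2 * k + 1) ^ 2 = 4 * (k * (k + 1)) + 1 := by ring
      have e4 : 64 * B * F = 4 * (16 * B * F) := by ring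
      omega
  · omega

section Par

variable {N κ v m q : ℕ}

/-- The colour classes of the gadget are few. -/
theorem par_kappa (hMc : (m * (2 * (v + 1) + 1)) ^ 2 ≤ 2 ^ 30 * (v ^ 4 * (Nat.log 2 v + 1) ^ 6))
    (hκ1 : 2 ^ 16 * v ^ 2 * (Nat.log 2 v + 1) ^ 3 < κ) :
    1 + (m * (2 * (v + 1) + 1) + m) ≤ κ ∧ m * (2 * (v + 1) + 1) + 2 * m ≤ κ := by
  have h0 : m * (2 * (v + 1) + 1) ≤ 2 ^ 15 * v ^ 2 * (Nat.log 2 v + 1) ^ 3 := by
    have h1 : (m * (2 * (v + 1) + 1)) ^ 2 ≤ (2 ^ 15 * v ^ 2 * (Nat.log 2 v + 1) ^ 3) ^ 2 := by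
      refine hMc.trans (le_of_eq ?_)
      ring
    exact (Nat.pow_le_pow_iff_left (by norm_num)).mp h1
  have h1 : m * 2 ≤ m * (2 * (v + 1) + 1) := Nat.mul_le_mul_left _ (by omega)
  have h2 : 2 ^ 16 * v ^ 2 * (Nat.log 2 v + 1) ^ 3 =
      2 * (2 ^ 15 * v ^ 2 * (Nat.log 2 v + 1) ^ 3) := by ring
  omega

theorem par_vF (hv : 1 ≤ v) : v ≤ 2 ^ 25 * v ^ 2 * (Nat.log 2 v + 1) ^ 3 := by
  set L := Nat.log 2 v + 1 with hL
  have h0 : 0 < 2 ^ 25 * v * L ^ 3 := by positivity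
  have h1 : v * 1 ≤ v * (2 ^ 25 * v * L ^ 3) := Nat.mul_le_mul_left _ h0
  have h2 : v * (2 ^ 25 * v * L ^ 3) = 2 ^ 25 * v ^ 2 * L ^ 3 := by ring
  omega

theorem par_v4 {F : ℕ} (hNv : N ^ 2 ≤ 2 ^ v) (hNF : 100 * F ≤ N) (hF : 1 ≤ F) : 4 ≤ v := by
  by_contra hcon
  have h1 : (2 : ℕ) ^ v ≤ 2 ^ 3 := Nat.pow_le_pow_right (by norm_num) (by omega)
  have h2 : 100 ≤ N := by omega
  have h3 : 100 ^ 2 ≤ N ^ 2 := Nat.pow_le_pow_left h2 2
  norm_num at h1 h3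
  omega

theorem par_gadget (hv : 1 ≤ v)
    (hMc : (m * (2 * (v + 1) + 1)) ^ 2 ≤ 2 ^ 30 * (v ^ 4 * (Nat.log 2 v + 1) ^ 6)) :
    m * (2 * (v + 1) + 1) + m ≤ 2 ^ 25 * v ^ 2 * (Nat.log 2 v + 1) ^ 3 := by
  have h0 : m * (2 * (v + 1) + 1) ≤ 2 ^ 15 * v ^ 2 * (Nat.log 2 v + 1) ^ 3 := by
    have h1 : (m * (2 * (v + 1) + 1)) ^ 2 ≤ (2 ^ 15 * v ^ 2 * (Nat.log 2 v + 1) ^ 3) ^ 2 := by
      refine hMc.trans (le_of_eq ?_)
      ring
    exact (Nat.pow_le_pow_iff_left (by norm_num)).mp h1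
  have h1 : m * 1 ≤ m * (2 * (v + 1) + 1) := Nat.mul_le_mul_left _ (by omega)
  have h2 : 2 ^ 25 * v ^ 2 * (Nat.log 2 v + 1) ^ 3 =
      1024 * (2 ^ 15 * v ^ 2 * (Nat.log 2 v + 1) ^ 3) := by ring
  omega

theorem par_size (hv : 1 ≤ v)
    (hmq : m * q ≤ 2 ^ 25 * (v ^ 2 * (Nat.log 2 v + 1) ^ 3))
    (hG : m * ((2 * (v + 1) + 1) * (q * q)) ≤ 2 ^ 52 * (v ^ 4 * (Nat.log 2 v + 1) ^ 6))
    (hN : 2 ^ 55 * v ^ 4 * (Nat.log 2 v + 1) ^ 6 ≤ N) :
    m * q ≤ 2 ^ 25 * v ^ 2 * (Nat.log 2 v + 1) ^ 3 ∧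
      1 ≤ 2 ^ 25 * v ^ 2 * (Nat.log 2 v + 1) ^ 3 ∧
      100 * (2 ^ 25 * v ^ 2 * (Nat.log 2 v + 1) ^ 3) ≤ N ∧
      8 * (m * ((2 * (v + 1) + 1) * (q * q))) ≤ N ∧ m * q + 4 ≤ N ^ 2 := by
  set L := Nat.log 2 v + 1 with hL
  have hL1 : 1 ≤ L := by omega
  have hvD : v ^ 2 * L ^ 3 ≤ v ^ 4 * L ^ 6 := Nat.mul_le_mul
    (Nat.pow_le_pow_right hv (by norm_num)) (Nat.pow_le_pow_right hL1 (by norm_num))
  have hE1 : 1 ≤ v ^ 2 * L ^ 3 := by
    have : 0 < v ^ 2 * L ^ 3 := by positivity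
    omega
  have h55 : 2 ^ 55 * v ^ 4 * L ^ 6 = 2 ^ 55 * (v ^ 4 * L ^ 6) := by ring
  have h25 : 2 ^ 25 * v ^ 2 * L ^ 3 = 2 ^ 25 * (v ^ 2 * L ^ 3) := by ring
  rw [h25]
  have hNN : N * 1 ≤ N ^ 2 := by
    rw [pow_two]
    exact Nat.mul_le_mul_left _ (by omega)
  refine ⟨hmq, by omega, by omega, by omega, by omega⟩

end Par

/-- **The clique function needs many negations above every rich set of variables.** -/
theorem local_bound {N κ v B : ℕ} (U : Finset (EdgeVar N)) (hv : 1 ≤ v) (hB : 1 ≤ B)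
    (hκ1 : 2 ^ 16 * v ^ 2 * (Nat.log 2 v + 1) ^ 3 < κ) (hκ2 : 2 * κ ≤ N)
    (hN : 2 ^ 55 * v ^ 4 * (Nat.log 2 v + 1) ^ 6 ≤ N)
    (hU : Rich U B (2 ^ 25 * v ^ 2 * (Nat.log 2 v + 1) ^ 3) v κ) :
    ∃ (z : EdgeVar N → Bool) (Ω : Type) (_ : Fintype Ω) (_ : Nonempty Ω)
      (Z : Ω → EdgeVar N → Bool), (∀ ω j, j ∉ U → Z ω j = z j) ∧
      ∀ (s T : ℕ) (C : Net (EdgeVar N) s), ChangesOnLE C (U : Set (EdgeVar N)) z T →
        (T < B → (∀ x, (∀ j, j ∉ U → x j = z j) → (C.Accepts x ↔ HasClique N κ x)) →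
          2 ^ v < N ^ 2 + s) ∧
        (N ^ 2 + s ≤ 2 ^ v → prob (fun ω => C.Accepts (Z ω) ↔ HasClique N κ (Z ω)) ≤
          1 / 2 + (T : ℝ) / (2 * B) + (1 / 2 : ℝ) ^ v) := by
  classical
  by_cases hNv : N ^ 2 ≤ 2 ^ v
  swap
  · refine ⟨fun _ => false, Unit, inferInstance, inferInstance, fun _ _ => false,
      fun _ _ _ => rfl, ?_⟩
    intro s T C _
    exact ⟨fun _ _ => by omega, fun h => by omega⟩
  obtain ⟨m, q, hm1, hq, hmq, hMc, hG, hard⟩ := exists_hard_on v hv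
  obtain ⟨hmqF, hF1, hNF, hG8, hmq4⟩ := par_size hv hmq hG hN
  obtain ⟨hk1, -⟩ := par_kappa hMc hκ1
  have hvF : v ≤ 2 ^ 25 * v ^ 2 * (Nat.log 2 v + 1) ^ 3 := par_vF hv
  have hv4 : 4 ≤ v := par_v4 hNv hNF hF1
  have hbl : Blocks (U : Set (EdgeVar N)) B κ (2 * (v + 1)) m q := by
    rcases hU with ⟨A, L, hAL, h0, h1, h2⟩ | ⟨h1, h2⟩
    · exact blocks_biclique _ (by omega) hm1 hq hmqF hF1 hNF hG8 hk1 hκ2 A L hAL
        (fun e he => h0 e he) h1 h2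
    · have h3 : 8 * B * (2 ^ 25 * v ^ 2 * (Nat.log 2 v + 1) ^ 3) ≤
          touched (U : Set (EdgeVar N)) ∨ _ := h2.imp id
            (fun h => room_edges hB hv4 hvF hNv (by omega) U h)
      have htouch : 8 * B * (2 ^ 25 * v ^ 2 * (Nat.log 2 v + 1) ^ 3) ≤
          touched (U : Set (EdgeVar N)) →
          Blocks (U : Set (EdgeVar N)) B κ (2 * (v + 1)) m q := by
        intro h4
        refine blocks_touched _ (by omega) hm1 hq hmqF hF1 hNF hG8 ?_ hκ2 h4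
        have h5 := par_gadget hv hMc
        omega
      rcases h3 with h4 | h4 | ⟨A, L, D, hAL, hA, hL, hD, hD2, hAD⟩
      · exact htouch h4
      · exact htouch h4
      · exact blocks_degree _ (by omega) hm1 hq hmqF hF1 hv hNv hG8 hk1 hκ2 A L hAL hA hL hD
          hD2 hAD
  have h4B : 4 * B ≤ N ^ 2 := rich_bound hv hF1 hU
  obtain ⟨I, hI, z0, φ, hBI, hφ, hz, hφU, hx⟩ := hbl
  have hIpos : 0 < Fintype.card I := by omega
  have hIv : Fintype.card I ≤ 2 ^ v := by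
    have h1 : Function.Injective (fun b : I => φ b (⟨0, hm1⟩, ⟨0, hq⟩)) := fun b b' h =>
      (hφ _ _ _ _ h).1
    exact ((Fintype.card_le_of_injective _ h1).trans (card_edgeVar_le N)).trans hNv
  obtain ⟨Ω, hΩ1, hΩ2, Z, hZ, hhard⟩ := hard (EdgeVar N) I (HasClique N κ) z0 φ hIpos hIv hφ hz
    (fun x => by rw [← hx x])
  have hZU : ∀ ω j, j ∉ U → Z ω j = decide (z0 j) := fun ω j hj =>
    hZ ω j (fun b i h => hj (h ▸ hφU b i))
  refine ⟨fun j => decide (z0 j), Ω, hΩ1, hΩ2, Z, hZU, ?_⟩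
  intro s T C hC
  obtain ⟨R, hR1, hR2⟩ := exists_restrict C U (fun j => decide (z0 j))
  have hBR : (0 : ℝ) < B := by exact_mod_cast hB
  have hb : N ^ 2 + s ≤ 2 ^ v → prob (fun ω => C.Accepts (Z ω) ↔ HasClique N κ (Z ω)) ≤
      1 / 2 + (T : ℝ) / (2 * B) + (1 / 2 : ℝ) ^ v := by
    intro hs
    have h := hhard s T R (by omega) (hR2 T hC)
    have e : prob (fun ω => C.Accepts (Z ω) ↔ HasClique N κ (Z ω)) =
        prob (fun ω => R.Accepts (Z ω) ↔ HasClique N κ (Z ω)) :=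
      Pool.Agent.Lib_MP_22d2c8_rsf.prob_congr fun ω => by rw [hR1 (Z ω) (hZU ω)]
    rw [e]
    refine h.trans ?_
    have h1 : (B : ℝ) ≤ Fintype.card I := by exact_mod_cast hBI
    have h2 : (T : ℝ) / (2 * Fintype.card I) ≤ (T : ℝ) / (2 * B) := by
      apply div_le_div_of_nonneg_left (by positivity) (by positivity)
      linarith
    linarith
  refine ⟨?_, hb⟩
  intro hT hdec
  by_contra hcon
  push Not at hcon
  have h := hb hcon
  have h1 : prob (fun ω => C.Accepts (Z ω) ↔ HasClique N κ (Z ω)) = 1 :=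
    Pool.Agent.Lib_MP_22d2c8_rsf.prob_true fun ω => hdec (Z ω) (hZU ω)
  rw [h1] at h
  have h2 : ((T : ℝ) + 1) ≤ B := by exact_mod_cast hT
  have h3 : (4 : ℝ) * B ≤ 2 ^ v := by exact_mod_cast (h4B.trans hNv)
  have h4 : (T : ℝ) / (2 * B) ≤ 1 / 2 - 1 / (2 * B) := by
    rw [div_le_iff₀ (by positivity)]
    have h5 : (1 / 2 - 1 / (2 * (B : ℝ))) * (2 * B) = B - 1 := by
      field_simp
    rw [h5]
    linarith
  have h5 : (1 / 2 : ℝ) ^ v ≤ 1 / (4 * B) := by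
    rw [one_div_pow]
    exact one_div_le_one_div_of_le (by positivity) h3
  have h6 : (1 : ℝ) / (4 * B) < 1 / (2 * B) := by
    apply one_div_lt_one_div_of_lt (by positivity)
    linarith
  linarith

end Pool.Agent.Lib_MP_22d2c8_ln
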